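import Pool.Agent.L7h5.SL.Final

/-!
# One number field for each space of coordinates: assembly (helper5)
-/

set_option autoImplicit false
set_option linter.unusedSectionVars false

namespace Pool.Agent.L7h5.SL

open Module Finset NumberField TensorProduct Pool.Agent.W254.Ab
open Pool.Agent.W289.SL Pool.Agent.W332.SL6 Pool.Agent.W332.SL7

variable {p : ℕ} [hp : Fact p.Prime]

/-- descent of vectors to `F₀` -/
def Desc (A : QSub ℂ_[p]) (F₀ : IntermediateField ℚ (AlgebraicClosure ℚ)) : Prop :=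
  ∀ (H : Type) [Field H] [NumberField H] (j : H →+* AlgebraicClosure ℚ)
    (L : ℂ_[p] → ℂ_[p]) (hL : IsIwasawaLog p L) (σ : H →+* ℂ_[p])
    (y : ℂ_[p]) (x : UM p H), CoordsIn A y Set.univ x → logLin hL σ x = 0 →
      CoordsIn A y {a | j a ∈ F₀} x

theorem resS_nonempty {H : Type} [Field H] [NumberField H] {K H₀ : IntermediateField ℚ H}
    {S : Set (K →+* ℂ_[p])} (hS : S.Nonempty) : (resS K H₀ S).Nonempty := by
  obtain ⟨σ, hσ⟩ := hS
  let f : low K H₀ →+* K :=
    { toFun := fun a => ⟨((a : H₀) : H), a.2⟩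
      map_one' := rfl
      map_mul' := fun _ _ => rfl
      map_zero' := rfl
      map_add' := fun _ _ => rfl }
  refine ⟨σ.comp f, σ, hσ, ?_⟩
  intro a b hab
  have h1 : f a = b := Subtype.ext hab
  rw [RingHom.comp_apply, h1]

section

variable {A : QSub ℂ_[p]} {F₀ : IntermediateField ℚ (AlgebraicClosure ℚ)}
  [hN : Normal ℚ F₀] (hD : Desc A F₀) {H : Type} [Field H] [NumberField H]
  (j : H →+* AlgebraicClosure ℚ) {K : IntermediateField ℚ H} [IsGalois K H]
  {S : Set (K →+* ℂ_[p])} {χ : (H ≃ₐ[K] H) →* ℂ_[p]ˣ} (hS : S.Nonempty)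
  (hχ : Function.Injective χ)

include hN in
theorem part_stable (g : H ≃ₐ[K] H) (a : H) (ha : a ∈ part F₀ j) : g a ∈ part F₀ j :=
  stab F₀ j (j.comp (g : H →+* H)) ha

include hN hD hS hχ

theorem down (hf : Fails A K S χ) :
    K ⊔ part F₀ j = ⊤ ∧ IsGalois (low K (part F₀ j)) (part F₀ j) ∧
      ∃ χ₀ : (part F₀ j ≃ₐ[low K (part F₀ j)] part F₀ j) →* ℂ_[p]ˣ,
        Function.Injective χ₀ ∧ Compat K (part F₀ j) χ χ₀ ∧
          Fails A (low K (part F₀ j)) (resS K (part F₀ j) S) χ₀ := by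
  obtain ⟨L, hL, y, x, hx0, hx, hk⟩ := hf
  obtain ⟨τ, hτ⟩ := hS
  obtain ⟨σ, hσ⟩ := exists_ext (H := H) τ
  have h1 := hD H j L hL σ y x hx (hk.2 σ (by rw [hσ]; exact hτ))
  exact fails_down (part_stable j) hχ hL hx0 h1 hk

theorem fails_iff : Fails A K S χ ↔ (K ⊔ part F₀ j = ⊤ ∧
      IsGalois (low K (part F₀ j)) (part F₀ j) ∧
      ∃ χ₀ : (part F₀ j ≃ₐ[low K (part F₀ j)] part F₀ j) →* ℂ_[p]ˣ,
        Function.Injective χ₀ ∧ Compat K (part F₀ j) χ χ₀ ∧
          Fails A (low K (part F₀ j)) (resS K (part F₀ j) S) χ₀) := by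
  constructor
  · exact down hD j hS hχ
  · rintro ⟨-, -, χ₀, -, hc, hf⟩
    exact fails_up (part_stable j) hc hf

theorem not_sub (hf : Fails A K S χ) : ¬ Subsingleton (InfinitePlace ↥(K ⊓ part F₀ j)) := by
  intro h
  obtain ⟨-, hG, χ₀, -, -, L, hL, y, x, hx0, -, hk⟩ := down hD j hS hχ hf
  exact hx0 (one_place (places_transport K _ h) χ₀ (resS_nonempty hS) hL x hk)

include j in
theorem deg (hfin : FiniteDimensional ℚ F₀) (hf : Fails A K S χ) :
    finrank K H ≤ finrank ℚ F₀ := by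
  refine (degree_le (down hD j hS hχ hf).1).trans ?_
  let f : part F₀ j →ₗ[ℚ] F₀ :=
    { toFun := fun a => ⟨j a, a.2⟩
      map_add' := fun a b => Subtype.ext (map_add j _ _)
      map_smul' := fun q a => by
        apply Subtype.ext
        change j (((q • a : part F₀ j)) : H) = ((q • (⟨j a, a.2⟩ : F₀) : F₀) : AlgebraicClosure ℚ)
        rw [Rat.smul_def, Rat.smul_def]
        change j ((q : H) * (a : H)) = (((q : F₀) * (⟨j a, a.2⟩ : F₀) : F₀) : AlgebraicClosure ℚ)
        rw [map_mul, map_ratCast]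
        rfl }
  refine LinearMap.finrank_le_finrank_of_injective (f := f) ?_
  intro a b hab
  have h1 : j (a : H) = j (b : H) := congrArg (fun z : F₀ => (z : AlgebraicClosure ℚ)) hab
  exact Subtype.ext (j.injective h1)

theorem cm_case [IsCMField K] (hf : Fails A K S χ) :
    ∃ a : K, a ∈ maximalRealSubfield K ∧ j (a : H) ∈ F₀ ∧ ∀ q : ℚ, a ≠ (q : K) := by
  by_contra hcon
  push Not at hcon
  exact not_sub hD j hS hχ hf (cm_place K F₀ j hcon)

end

section fin

variable {A : QSub ℂ_[p]} {F₀ : IntermediateField ℚ (AlgebraicClosure ℚ)}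
  (hN : Normal ℚ F₀) (hfin : FiniteDimensional ℚ F₀) (hD : Desc A F₀)

/-- the fields `H` over a given field `k` with a failure -/
def FailingOver (A : QSub ℂ_[p]) (k : Subfield (AlgebraicClosure ℚ)) :
    Set (Subfield (AlgebraicClosure ℚ)) :=
  {E | ∃ (H : Type) (_ : Field H) (_ : NumberField H) (j : H →+* AlgebraicClosure ℚ)
    (K : IntermediateField ℚ H) (_ : IsGalois K H) (S : Set (K →+* ℂ_[p]))
    (χ : (H ≃ₐ[K] H) →* ℂ_[p]ˣ), K.toSubfield.map j = k ∧ j.fieldRange = E ∧ S.Nonempty ∧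
      Function.Injective χ ∧ Fails A K S χ}

/-- the maximal real subfields, without nontrivial subfields, of the CM fields with a failure -/
def FailingReal (A : QSub ℂ_[p]) : Set (Subfield (AlgebraicClosure ℚ)) :=
  {E | (∀ M : Subfield (AlgebraicClosure ℚ), M ≤ E → M = ⊥ ∨ M = E) ∧
    ∃ (H : Type) (_ : Field H) (_ : NumberField H) (j : H →+* AlgebraicClosure ℚ)
    (K : IntermediateField ℚ H) (_ : IsCMField K) (_ : IsGalois K H) (S : Set (K →+* ℂ_[p]))
    (χ : (H ≃ₐ[K] H) →* ℂ_[p]ˣ), (maximalRealSubfield K).map (j.comp (algebraMap K H)) = E ∧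
      S.Nonempty ∧ Function.Injective χ ∧ Fails A K S χ}

include hN hfin hD

theorem finite_H (k : Subfield (AlgebraicClosure ℚ)) : (FailingOver A k).Finite := by
  rcases (FailingOver A k).eq_empty_or_nonempty with h0 | ⟨E₁, hE₁⟩
  · rw [h0]
    exact Set.finite_empty
  obtain ⟨H₁, i1, i2, j₁, K₁, -, -, -, hk₁, -⟩ := hE₁
  let k' : IntermediateField ℚ (AlgebraicClosure ℚ) :=
    Subfield.toIntermediateField k (fun q => by
      rw [eq_ratCast]
      exact SubfieldClass.ratCast_mem k q)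
  have hmk : ∀ a, a ∈ k' ↔ a ∈ k := fun a => Iff.rfl
  have hfk : FiniteDimensional ℚ k' := by
    let f : K₁ →ₗ[ℚ] k' :=
      { toFun := fun a => ⟨j₁ a, by
          rw [hmk, ← hk₁]
          exact ⟨(a : H₁), a.2, rfl⟩⟩
        map_add' := fun a b => Subtype.ext (map_add j₁ _ _)
        map_smul' := fun q a => by
          apply Subtype.ext
          rw [Rat.smul_def, Rat.smul_def]
          change j₁ ((q : H₁) * (a : H₁)) = (q : AlgebraicClosure ℚ) * j₁ (a : H₁)
          rw [map_mul, map_ratCast] }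
    refine Module.Finite.of_surjective f ?_
    rintro ⟨b, hb⟩
    rw [hmk, ← hk₁] at hb
    obtain ⟨a, ha, rfl⟩ := hb
    exact ⟨⟨a, ha⟩, rfl⟩
  have hfs : FiniteDimensional ℚ (k' ⊔ F₀ : IntermediateField ℚ (AlgebraicClosure ℚ)) := by
    have h1 := @IntermediateField.finiteDimensional_sup ℚ (AlgebraicClosure ℚ) _ _ _ k' F₀
      (by convert hfk) (by convert hfin)
    convert h1
  refine (finite_sub _ hfs).subset ?_
  rintro E ⟨H, _, _, j, K, _, S, χ, hk, rfl, hS, hχ, hf⟩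
  have htop := (down hD j hS hχ hf).1
  have h1 : K ⊔ part F₀ j ≤ part (k' ⊔ F₀) j := by
    refine sup_le ?_ ?_
    · intro a ha
      rw [mem_part]
      refine (le_sup_left : k' ≤ k' ⊔ F₀) ?_
      rw [hmk, ← hk]
      exact ⟨a, ha, rfl⟩
    · intro a ha
      rw [mem_part]
      exact (le_sup_right : F₀ ≤ k' ⊔ F₀) ha
  rintro _ ⟨a, rfl⟩
  rw [htop] at h1
  exact h1 (IntermediateField.mem_top (x := a))

theorem finite_F : (FailingReal A).Finite := by
  refine (finite_sub _ hfin).subset ?_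
  rintro E ⟨hprim, H, _, _, j, K, _, _, S, χ, rfl, hS, hχ, hf⟩
  obtain ⟨a, ha, haF, haq⟩ := cm_case hD j hS hχ hf
  rcases hprim ((maximalRealSubfield K).map (j.comp (algebraMap K H)) ⊓ F₀.toSubfield)
    inf_le_left with h1 | h1
  · exfalso
    have h2 : j (a : H) ∈ (⊥ : Subfield (AlgebraicClosure ℚ)) := by
      rw [← h1]
      exact ⟨⟨a, ha, rfl⟩, haF⟩
    have h3 : j (a : H) ∈ (⊥ : IntermediateField ℚ (AlgebraicClosure ℚ)).toSubfield :=
      (bot_le : (⊥ : Subfield (AlgebraicClosure ℚ)) ≤ _) h2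
    obtain ⟨q, hq⟩ := IntermediateField.mem_bot.1 h3
    apply haq q
    apply Subtype.ext
    apply j.injective
    rw [← hq, eq_ratCast]
    change (q : AlgebraicClosure ℚ) = j ((q : K) : H)
    rw [← map_ratCast j q]
    rfl
  · exact h1.symm.le.trans inf_le_right

/-- **One field decides.** -/
theorem decides (h : ∀ (H : Type) [Field H] [NumberField H] (_ : H →+* F₀)
      (K : IntermediateField ℚ H) [IsGalois K H] (S : Set (K →+* ℂ_[p]))
      (χ : (H ≃ₐ[K] H) →* ℂ_[p]ˣ), S.Nonempty → Function.Injective χ → ¬ Fails A K S χ)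
    {H : Type} [Field H] [NumberField H] (K : IntermediateField ℚ H) [IsGalois K H]
    (S : Set (K →+* ℂ_[p])) (χ : (H ≃ₐ[K] H) →* ℂ_[p]ˣ) (hS : S.Nonempty)
    (hχ : Function.Injective χ) : ¬ Fails A K S χ := by
  intro hf
  obtain ⟨j⟩ : Nonempty (H →+* AlgebraicClosure ℚ) := by
    haveI : Algebra.IsAlgebraic ℚ H := inferInstance
    exact ⟨((IsAlgClosed.lift : H →ₐ[ℚ] AlgebraicClosure ℚ) : H →+* AlgebraicClosure ℚ)⟩
  obtain ⟨-, hG, χ₀, hχ₀, -, hf₀⟩ := down hD j hS hχ hf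
  let f : part F₀ j →+* F₀ :=
    { toFun := fun a => ⟨j a, a.2⟩
      map_one' := Subtype.ext (map_one j)
      map_mul' := fun a b => Subtype.ext (map_mul j _ _)
      map_zero' := Subtype.ext (map_zero j)
      map_add' := fun a b => Subtype.ext (map_add j _ _) }
  refine h (part F₀ j) f (low K (part F₀ j)) (resS K (part F₀ j) S) χ₀ ?_ hχ₀ hf₀
  exact resS_nonempty hS

end fin

end Pool.Agent.L7h5.SL
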