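import Pool.Agent.L7h5.SL.Tens

/-!
# Characters: the failure of the `Σ`-Leopoldt statement with coordinates in `A` (helper5)
-/

set_option autoImplicit false
set_option linter.unusedSectionVars false

namespace Pool.Agent.L7h5.SL

open Module Finset NumberField TensorProduct Pool.Agent.W254.Ab
open Pool.Agent.W289.SL Pool.Agent.W332.SL6 Pool.Agent.W332.SL7

variable {p : ℕ} [hp : Fact p.Prime]

/-- there is a nonzero vector in the `χ`-part of `ℂ_p ⊗ 𝓞_H^×` with coordinates in `y A` for some
`y`, killed by the logarithms for all embeddings of `H` which extend an element of `S` -/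
def Fails {H : Type} [Field H] [NumberField H] (A : QSub ℂ_[p]) (K : IntermediateField ℚ H)
    (S : Set (K →+* ℂ_[p])) (χ : (H ≃ₐ[K] H) →* ℂ_[p]ˣ) : Prop :=
  ∃ (L : ℂ_[p] → ℂ_[p]) (hL : IsIwasawaLog p L) (y : ℂ_[p]) (x : UM p H), x ≠ 0 ∧
    CoordsIn A y Set.univ x ∧ InKernel S χ hL x

section stab

variable {Q : Type} [Field Q] [Algebra ℚ Q]

/-- normal fields are stable -/
theorem stab (F₀ : IntermediateField ℚ Q) [hN : Normal ℚ F₀] {H : Type} [Field H] [NumberField H]
    (f f' : H →+* Q) {a : H} (h : f a ∈ F₀) : f' a ∈ F₀ := by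
  have hint : IsIntegral ℚ a := Algebra.IsIntegral.isIntegral a
  have hff : ∀ g : H →+* Q, g.comp (algebraMap ℚ H) = algebraMap ℚ Q := fun g => RingHom.ext_rat _ _
  let z : F₀ := ⟨f a, h⟩
  have hz : algebraMap F₀ Q z = f a := rfl
  have h1 : minpoly ℚ z = minpoly ℚ a := by
    have h2 : minpoly ℚ z = minpoly ℚ (f a) := by
      rw [← hz]
      exact (minpoly.algebraMap_eq (algebraMap F₀ Q).injective z).symm
    rw [h2]
    let f1 : H →ₐ[ℚ] Q := { f with commutes' := fun r => RingHom.congr_fun (hff f) r }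
    exact minpoly.algHom_eq f1 f1.injective a
  have h3 : ((minpoly ℚ a).map (algebraMap ℚ F₀)).Splits := by
    rw [← h1]
    exact hN.splits z
  have h4 : (minpoly ℚ a).map (algebraMap ℚ F₀) ≠ 0 :=
    (Polynomial.map_ne_zero_iff (algebraMap ℚ F₀).injective).mpr (minpoly.ne_zero hint)
  have h5 : (((minpoly ℚ a).map (algebraMap ℚ F₀)).map (algebraMap F₀ Q)).IsRoot (f' a) := by
    rw [Polynomial.IsRoot.def, Polynomial.map_map, ← IsScalarTower.algebraMap_eq, ← hff f',
      ← Polynomial.map_map, Polynomial.eval_map, Polynomial.eval₂_at_apply, Polynomial.eval_map]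
    have h6 : Polynomial.eval₂ (algebraMap ℚ H) a (minpoly ℚ a) = 0 := minpoly.aeval ℚ a
    rw [h6, map_zero]
  obtain ⟨w, hw⟩ := h3.mem_range_of_isRoot h4 h5
  rw [← hw]
  exact w.2

/-- the elements of `H` which belong to `F₀` -/
def part (F₀ : IntermediateField ℚ Q) {H : Type} [Field H] [NumberField H] (j : H →+* Q) :
    IntermediateField ℚ H where
  carrier := {a | j a ∈ F₀}
  mul_mem' := by
    intro a b ha hb
    change j (a * b) ∈ F₀
    rw [map_mul]
    exact F₀.mul_mem ha hb
  add_mem' := by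
    intro a b ha hb
    change j (a + b) ∈ F₀
    rw [map_add]
    exact F₀.add_mem ha hb
  algebraMap_mem' := by
    intro q
    change j (algebraMap ℚ H q) ∈ F₀
    have h1 : j (algebraMap ℚ H q) = algebraMap ℚ Q q :=
      RingHom.congr_fun (RingHom.ext_rat (j.comp (algebraMap ℚ H)) (algebraMap ℚ Q)) q
    rw [h1]
    exact F₀.algebraMap_mem q
  inv_mem' := by
    intro a ha
    change j a⁻¹ ∈ F₀
    rw [map_inv₀]
    exact F₀.inv_mem ha

theorem mem_part (F₀ : IntermediateField ℚ Q) {H : Type} [Field H] [NumberField H] (j : H →+* Q)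
    (a : H) : a ∈ part F₀ j ↔ j a ∈ F₀ := Iff.rfl

end stab

section res

variable {H : Type} [Field H] [NumberField H] (K H₀ : IntermediateField ℚ H)

/-- the subfield `K ∩ H₀` of `H₀` -/
abbrev low : IntermediateField ℚ H₀ := K.comap H₀.val

theorem mem_low (a : H₀) : a ∈ low K H₀ ↔ (a : H) ∈ K := Iff.rfl

/-- restriction of automorphisms -/
def res (h : ∀ (g : H ≃ₐ[K] H), ∀ a ∈ H₀, g a ∈ H₀) :
    (H ≃ₐ[K] H) →* (H₀ ≃ₐ[low K H₀] H₀) where
  toFun g :=
    { toFun := fun a => ⟨g a, h g a a.2⟩
      invFun := fun a => ⟨g.symm a, h g.symm a a.2⟩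
      left_inv := fun a => Subtype.ext (g.symm_apply_apply _)
      right_inv := fun a => Subtype.ext (g.apply_symm_apply _)
      map_mul' := fun a b => Subtype.ext (map_mul g _ _)
      map_add' := fun a b => Subtype.ext (map_add g _ _)
      commutes' := fun k => Subtype.ext (g.commutes (⟨((k : H₀) : H), k.2⟩ : K)) }
  map_one' := by
    ext a
    rfl
  map_mul' g g' := by
    ext a
    rfl

variable {K H₀} (h : ∀ (g : H ≃ₐ[K] H), ∀ a ∈ H₀, g a ∈ H₀)

theorem res_coe (g : H ≃ₐ[K] H) (a : H₀) : ((res K H₀ h g a : H₀) : H) = g a := rfl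

theorem res_injective (htop : K ⊔ H₀ = ⊤) : Function.Injective (res K H₀ h) := by
  rw [injective_iff_map_eq_one]
  intro g hg
  -- the fixed field of `g`
  have h1 : K ⊔ H₀ ≤ (IntermediateField.fixedField (Subgroup.zpowers g)).restrictScalars ℚ := by
    refine sup_le ?_ ?_
    · intro a ha
      rw [IntermediateField.mem_restrictScalars, IntermediateField.mem_fixedField_iff]
      intro f _
      exact f.commutes (⟨a, ha⟩ : K)
    · intro a ha
      rw [IntermediateField.mem_restrictScalars, IntermediateField.mem_fixedField_iff]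
      have h2 : g a = a := by
        have h3 := congrArg (fun f : H₀ ≃ₐ[low K H₀] H₀ => ((f ⟨a, ha⟩ : H₀) : H)) hg
        exact h3
      intro f hf
      have h4 : Subgroup.zpowers g ≤ MulAction.stabilizer (H ≃ₐ[K] H) a := by
        rw [Subgroup.zpowers_le]
        exact h2
      exact h4 hf
  rw [htop] at h1
  ext a
  have h2 : a ∈ (IntermediateField.fixedField (Subgroup.zpowers g)).restrictScalars ℚ :=
    h1 IntermediateField.mem_top
  rw [IntermediateField.mem_restrictScalars, IntermediateField.mem_fixedField_iff] at h2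
  exact h2 g (Subgroup.mem_zpowers g)

theorem res_surjective [IsGalois K H] : Function.Surjective (res K H₀ h) := by
  rw [← MonoidHom.range_eq_top]
  have h1 : IntermediateField.fixedField (res K H₀ h).range = ⊥ := by
    rw [eq_bot_iff]
    intro a ha
    rw [IntermediateField.mem_fixedField_iff] at ha
    have h2 : (a : H) ∈ (⊥ : IntermediateField K H) := by
      rw [← IsGalois.fixedField_top (F := K) (E := H), IntermediateField.mem_fixedField_iff]
      intro g _
      have h3 := ha (res K H₀ h g) ⟨g, rfl⟩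
      exact congrArg (fun z : H₀ => (z : H)) h3
    obtain ⟨k, hk⟩ := IntermediateField.mem_bot.1 h2
    rw [IntermediateField.mem_bot]
    have h4 : (a : H) ∈ K := by
      rw [← hk]
      exact k.2
    exact ⟨⟨a, h4⟩, rfl⟩
  rw [← IntermediateField.fixingSubgroup_fixedField (res K H₀ h).range, h1,
    IntermediateField.fixingSubgroup_bot]

include h in
theorem low_galois [IsGalois K H] : IsGalois (low K H₀) H₀ := by
  apply IsGalois.of_fixedField_eq_bot
  rw [eq_bot_iff]
  intro a ha
  rw [IntermediateField.mem_fixedField_iff] at ha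
  have h2 : (a : H) ∈ (⊥ : IntermediateField K H) := by
    rw [← IsGalois.fixedField_top (F := K) (E := H), IntermediateField.mem_fixedField_iff]
    intro g _
    have h3 := ha (res K H₀ h g) (Subgroup.mem_top _)
    exact congrArg (fun z : H₀ => (z : H)) h3
  obtain ⟨k, hk⟩ := IntermediateField.mem_bot.1 h2
  rw [IntermediateField.mem_bot]
  have h4 : (a : H) ∈ K := by
    rw [← hk]
    exact k.2
  exact ⟨⟨a, h4⟩, rfl⟩

end res

section units

variable {H : Type} [Field H] [NumberField H] {H₀ : IntermediateField ℚ H}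

theorem exists_unit_lift (u : (𝓞 H)ˣ) (hu : ((u : 𝓞 H) : H) ∈ H₀) :
    ∃ v : (𝓞 H₀)ˣ, (((v : 𝓞 H₀) : H₀) : H) = ((u : 𝓞 H) : H) := by
  have hU := Pool.Agent.N551.LF.isU_unit' u
  have hinj : Function.Injective (algebraMap H₀ H) := (algebraMap H₀ H).injective
  refine ⟨Pool.Agent.N551.LF.unitOf (⟨_, hu⟩ : H₀) ⟨?_, ?_, ?_⟩, rfl⟩
  · intro h
    apply hU.ne
    exact congrArg (fun z : H₀ => (z : H)) h
  · exact (isIntegral_algebraMap_iff hinj).1 hU.int
  · refine (isIntegral_algebraMap_iff hinj).1 ?_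
    have h2 := hU.inv
    rw [map_inv₀]
    exact h2

/-- vectors with coordinates in a subfield come from the subfield -/
theorem exists_lift {A : QSub ℂ_[p]} {y : ℂ_[p]} {x : UM p H}
    (hx : CoordsIn A y (H₀ : Set H) x) : ∃ x₀ : UM p H₀, CoordsIn A y Set.univ x₀ ∧
      push (algebraMap H₀ H) x₀ = x := by
  obtain ⟨r, a, u, ha, hu, rfl⟩ := coords_form hx
  choose v hv using fun i => exists_unit_lift (u i) (hu i)
  refine ⟨∑ i, (y * a i) ⊗ₜ[ℤ] (Additive.ofMul (v i)), coords_sum a v ha (fun i => Set.mem_univ _), ?_⟩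
  rw [map_sum]
  refine Finset.sum_congr rfl fun i _ => ?_
  rw [push_tmul]
  congr 1
  apply Additive.toMul.injective
  apply Units.ext
  apply RingOfIntegers.ext
  exact hv i

theorem coords_push_univ {M : Type} [Field M] [NumberField M] (f : H →+* M) {A : QSub ℂ_[p]}
    {y : ℂ_[p]} {x : UM p H} (hx : CoordsIn A y Set.univ x) :
    CoordsIn A y Set.univ (push f x) := by
  obtain ⟨r, a, u, ha, hu, rfl⟩ := coords_form hx
  rw [map_sum]
  refine AddSubmonoid.sum_mem _ fun i _ => ?_
  rw [push_tmul]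
  exact AddSubmonoid.subset_closure ⟨a i, ha i, Additive.toMul (uMap f (Additive.ofMul (u i))),
    Set.mem_univ _, rfl⟩

/-- automorphisms which fix the subfield fix the vectors -/
theorem act_fix {K : IntermediateField ℚ H} {A : QSub ℂ_[p]} {y : ℂ_[p]} {x : UM p H}
    (hx : CoordsIn A y (H₀ : Set H) x) (g : H ≃ₐ[K] H) (hg : ∀ a ∈ H₀, g a = a) :
    actLin p (g : H →+* H) x = x := by
  obtain ⟨r, a, u, ha, hu, rfl⟩ := coords_form hx
  rw [actLin_eq, map_sum]
  refine Finset.sum_congr rfl fun i _ => ?_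
  rw [push_tmul]
  congr 1
  apply Additive.toMul.injective
  apply Units.ext
  apply RingOfIntegers.ext
  exact hg _ (hu i)

end units

end Pool.Agent.L7h5.SL
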