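import Pool.Agent.N551.LF.Fin
import Pool.Agent.W332.SL7.Stmt

/-!
# Relations between `p`-adic logarithms of units in `ℂ_p`, with coefficients in a finite dimensional
space, descend to one number field (helper5; the proof of `Pool.Agent.N551.LF.descend`, helper551)
-/

set_option autoImplicit false

namespace Pool.Agent.L7h5.SL

open Module Finset NormedSpace NumberField Pool.Agent.W254.Ab
open Pool.Agent.W254.PA (IsU ic norm_ic relSet exists_supp LgP LtE exists_den exists_gal
  exists_pow_near norm_eq_one_of_isU)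
open Pool.Agent.W289.SL Pool.Agent.W332.SL6
open Pool.Agent.N551.LF (basis_form expMod mem_expMod)

section gen

variable {Ω : Type} [Field Ω] [CharZero Ω]

theorem rat_mul_mem (A : Submodule (QA Ω) Ω) {z : Ω} (hz : z ∈ A) (c : ℚ) : (c : Ω) * z ∈ A := by
  have h1 := A.smul_mem (algebraMap ℚ (QA Ω) c) hz
  rw [Algebra.smul_def] at h1
  have h2 : (algebraMap (QA Ω) Ω) (algebraMap ℚ (QA Ω) c) = (c : Ω) := by
    rw [← IsScalarTower.algebraMap_apply]
    exact eq_ratCast _ _
  rw [h2] at h1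
  exact h1

/-- a system of rational equations for the coefficients -/
theorem rat_form (A : Submodule (QA Ω) Ω) {r : ℕ} (a : Fin r → Ω) (ha : ∀ i, a i ∈ A) :
    ∃ (T : ℕ) (α : Fin T → Ω) (c : Fin T → Fin r → ℚ), (∀ t, α t ∈ A) ∧
      LinearIndependent ℚ α ∧ ∀ i, a i = ∑ t, (c t i : Ω) * α t := by
  classical
  let U : Submodule ℚ Ω := Submodule.span ℚ (Set.range a)
  haveI : FiniteDimensional ℚ U := FiniteDimensional.span_of_finite ℚ (Set.finite_range a)
  let B := Module.finBasis ℚ U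
  have hUA : ∀ x ∈ U, x ∈ A := by
    intro x hx
    refine Submodule.span_induction (p := fun x _ => x ∈ A) ?_ ?_ ?_ ?_ hx
    · rintro _ ⟨i, rfl⟩
      exact ha i
    · exact A.zero_mem
    · intro x y _ _ hx hy
      exact A.add_mem hx hy
    · intro c x _ hx
      rw [Rat.smul_def]
      exact rat_mul_mem A hx c
  have haU : ∀ i, a i ∈ U := fun i => Submodule.subset_span ⟨i, rfl⟩
  refine ⟨finrank ℚ U, fun t => (B t : Ω), fun t i => B.repr ⟨a i, haU i⟩ t, ?_, ?_, ?_⟩
  · intro t
    exact hUA _ (B t).2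
  · exact B.linearIndependent.map' U.subtype U.ker_subtype
  · intro i
    have h2 := B.sum_repr ⟨a i, haU i⟩
    have h3 := congrArg (fun x : U => (x : Ω)) h2
    simp only [Submodule.coe_sum, Submodule.coe_smul, Rat.smul_def] at h3
    exact h3.symm

end gen

/-- what is used of the logarithm on units -/
structure LogSys (Ω : Type) [Field Ω] [CharZero Ω] (V : Submodule (QA Ω) Ω) (L : Ω → Ω) : Prop where
  hyp : Pool.Agent.W254.PA.Hyp V
  mul : ∀ x y : Ω, x ≠ 0 → y ≠ 0 → L (x * y) = L x + L y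
  mem : ∀ x : Ω, IsU x → L x ∈ V
  tors : ∀ x : Ω, IsU x → L x = 0 → ∃ M : ℕ, 1 ≤ M ∧ x ^ M = 1
  brumer : ∀ (J : Type) [Fintype J] (u : J → Ω), (∀ j, IsU (u j)) →
    (LinearIndependent ℚ fun j => L (u j)) → ∀ c : J → Ω, (∀ j, IsAlgebraic ℚ (c j)) →
      ∑ j, c j * L (u j) = 0 → ∀ j, c j = 0

section genlog

variable {Ω : Type} [Field Ω] [CharZero Ω] {V : Submodule (QA Ω) Ω} {L : Ω → Ω}
  (hL : LogSys Ω V L)

include hL

theorem LogSys.one : L 1 = 0 := by
  have h := hL.mul 1 1 one_ne_zero one_ne_zero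
  rw [mul_one] at h
  exact left_eq_add.1 h

theorem LogSys.pow {x : Ω} (hx : x ≠ 0) (n : ℕ) : L (x ^ n) = n * L x := by
  induction n with
  | zero => simp [hL.one]
  | succ n ih =>
    rw [pow_succ, hL.mul _ _ (pow_ne_zero _ hx) hx, ih]
    push_cast
    ring

theorem LogSys.prod {J : Type*} (s : Finset J) (u : J → Ω) (hu : ∀ j ∈ s, u j ≠ 0) :
    L (∏ j ∈ s, u j) = ∑ j ∈ s, L (u j) := by
  classical
  induction s using Finset.induction_on with
  | empty => rw [Finset.prod_empty, Finset.sum_empty, hL.one]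
  | insert a s ha ih =>
    rw [Finset.prod_insert ha, Finset.sum_insert ha, hL.mul _ _ (hu a (mem_insert_self a s))
      (Finset.prod_ne_zero_iff.mpr (fun j hj => hu j (mem_insert_of_mem hj))),
      ih (fun j hj => hu j (mem_insert_of_mem hj))]

theorem LogSys.zpow {x : Ω} (hx : x ≠ 0) (n : ℤ) : L (x ^ n) = (n : Ω) * L x := by
  obtain ⟨m, rfl | rfl⟩ := n.eq_nat_or_neg
  · rw [zpow_natCast, hL.pow hx, Int.cast_natCast]
  · have h1 := hL.mul (x ^ m) (x ^ (-(m : ℤ))) (pow_ne_zero _ hx) (zpow_ne_zero _ hx)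
    rw [zpow_neg, zpow_natCast, mul_inv_cancel₀ (pow_ne_zero _ hx), hL.one, hL.pow hx] at h1
    rw [zpow_neg, zpow_natCast]
    push_cast
    linear_combination -h1

theorem log_prod_zpow {J : Type*} (s : Finset J) (u : J → Ω) (hu : ∀ j, IsU (u j))
    (m : J → ℤ) : L (∏ j ∈ s, u j ^ m j) = ∑ j ∈ s, (m j : Ω) * L (u j) := by
  rw [hL.prod s _ (fun j _ => zpow_ne_zero _ (hu j).ne)]
  apply Finset.sum_congr rfl
  intro j _
  exact hL.zpow (hu j).ne _

/-- Brumer's theorem for arbitrary systems of units -/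
theorem indepC {J : Type} (u : J → Ω) (hu : ∀ j, IsU (u j))
    (hli : LinearIndependent ℚ fun j => L (u j)) :
    LinearIndependent (QA Ω) fun j => L (u j) := by
  rw [linearIndependent_iff']
  intro s c hc i hi
  have h1 := hL.brumer s (fun j => u j) (fun j => hu j)
    (hli.comp (fun j : s => (j : J)) Subtype.val_injective) (fun j => (c j : Ω))
    (fun j => mem_algebraicClosure_iff.1 (c j).2) (by
      rw [← hc, ← Finset.sum_coe_sort s]
      rfl) ⟨i, hi⟩
  exact Subtype.ext h1

end genlog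

section gal

variable {Ω : Type} [Field Ω] [CharZero Ω] {V : Submodule (QA Ω) Ω} {L : Ω → Ω}
  (hL : LogSys Ω V L)
variable {k Q : Type} [Field k] [CharZero k] [Field Q] [CharZero Q] [Algebra k Q] [IsGalois k Q]

include hL in
/-- **Relations with coefficients in a finite dimensional space descend to one number field.** -/
theorem descend (ι : Q →+* Ω)
    (A : Submodule (QA (Ω)) (Ω)) [FiniteDimensional (QA (Ω)) A] :
    ∃ F₀ : IntermediateField k Q, FiniteDimensional k F₀ ∧ Normal k F₀ ∧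
      ∀ (r : ℕ) (ε : Fin r → Q), (∀ i, IsU (ε i)) →
        ∀ a : Fin r → Ω, (∀ i, a i ∈ A) → ∑ i, a i * L (ι (ε i)) = 0 →
          ∃ (s : ℕ) (q : Fin s → Fin r → ℤ) (b : Fin s → Ω), LinearIndependent ℤ q ∧
            (∀ j, b j ∈ A) ∧ (∀ i, a i = ∑ j, (q j i : Ω) * b j) ∧
              ∀ j, ∏ i, ε i ^ q j i ∈ F₀ := by
  classical
  set s : Set (Ω) := {z | ∃ u : Q, IsU u ∧ z = L (ι u)} with hs
  obtain ⟨b, hbs, hspan, hli⟩ := exists_linearIndependent ℚ s
  choose u hu hub using fun κ : b => hbs κ.2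
  let w : b → Ω := fun κ => (κ : Ω)
  have hwu : ∀ κ, w κ = L (ι (u κ)) := fun κ => hub κ
  have hwL : (fun κ : b => L (ι (u κ))) = w := by
    funext κ
    exact (hwu κ).symm
  have hw : LinearIndependent (QA (Ω)) w := by
    have h1 := indepC hL (J := b) (fun κ => ι (u κ)) (fun κ => (hu κ).map ι)
      (by rw [hwL]; exact hli)
    rw [← hwL]
    exact h1
  have hwmem : ∀ κ, w κ ∈ V := by
    intro κ
    rw [hwu]
    exact hL.mem _ ((hu κ).map ι)
  obtain ⟨S, hS⟩ := exists_supp hL.hyp w hw hwmem A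
  -- the field
  let F₁ : IntermediateField k Q := IntermediateField.adjoin k ((S.image u : Finset Q) : Set Q)
  haveI : FiniteDimensional k F₁ := by
    apply IntermediateField.finiteDimensional_adjoin
    intro x hx
    obtain ⟨κ, -, rfl⟩ := Finset.mem_image.mp (Finset.mem_coe.mp hx)
    exact (hu κ).int.tower_top
  let F₀ : IntermediateField k Q := IntermediateField.normalClosure k F₁ Q
  have hF1 : F₁ ≤ F₀ := IntermediateField.le_normalClosure F₁
  haveI hF0n : Normal k F₀ := inferInstance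
  haveI hF0f : FiniteDimensional k F₀ := inferInstance
  have huF : ∀ κ ∈ S, u κ ∈ F₀ := by
    intro κ hκ
    apply hF1
    apply IntermediateField.subset_adjoin
    exact Finset.mem_coe.mpr (Finset.mem_image_of_mem u hκ)
  refine ⟨F₀, hF0f, hF0n, ?_⟩
  intro r ε hε a haA ha0
  -- coordinates
  have hcoord : ∀ i, ∃ e : b →₀ ℚ, e.sum (fun κ c => (c : Ω) * w κ) = L (ι (ε i)) := by
    intro i
    have h1 : L (ι (ε i)) ∈ Submodule.span ℚ b := by
      rw [hspan]
      exact Submodule.subset_span ⟨ε i, hε i, rfl⟩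
    obtain ⟨e, he⟩ := (Finsupp.mem_span_iff_linearCombination ℚ b _).mp h1
    refine ⟨e, ?_⟩
    rw [← he, Finsupp.linearCombination_apply]
    apply Finsupp.sum_congr
    intro κ _
    rw [Rat.smul_def]
  choose e he using hcoord
  let T : Finset b := Finset.univ.biUnion (fun i => (e i).support)
  have hT : ∀ i, (e i).support ⊆ T := fun i =>
    Finset.subset_biUnion_of_mem (fun i => (e i).support) (Finset.mem_univ i)
  have heT : ∀ i, ∑ κ ∈ T, (e i κ : Ω) * w κ = L (ι (ε i)) := by
    intro i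
    rw [← he i, Finsupp.sum_of_support_subset _ (hT i) _ (by intro κ _; simp)]
  -- the relation
  let F : b →₀ Ω := ∑ i, a i • (e i).mapRange (fun q : ℚ => (q : Ω)) (by simp)
  have hFκ : ∀ κ, F κ = ∑ i, a i * (e i κ : Ω) := by
    intro κ
    change (∑ i, a i • (e i).mapRange (fun q : ℚ => (q : Ω)) (by simp)) κ = _
    rw [Finsupp.finsetSum_apply]
    apply Finset.sum_congr rfl
    intro i _
    rw [Finsupp.smul_apply, Finsupp.mapRange_apply, smul_eq_mul]
  have hFT : F.support ⊆ T := by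
    intro κ hκ
    by_contra hκT
    apply Finsupp.mem_support_iff.mp hκ
    rw [hFκ]
    apply Finset.sum_eq_zero
    intro i _
    have h1 : e i κ = 0 := by
      by_contra h0
      exact hκT (hT i (Finsupp.mem_support_iff.mpr h0))
    rw [h1, Rat.cast_zero, mul_zero]
  have hFrel : F ∈ relSet w A := by
    constructor
    · intro κ
      rw [hFκ]
      apply A.sum_mem
      intro i _
      rw [mul_comm]
      exact rat_mul_mem A (haA i) _
    · rw [Finsupp.sum_of_support_subset _ hFT _ (by intro κ _; ring), ← ha0]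
      simp only [hFκ, Finset.sum_mul]
      rw [Finset.sum_comm]
      apply Finset.sum_congr rfl
      intro i _
      rw [← heT i, Finset.mul_sum]
      apply Finset.sum_congr rfl
      intro κ _
      ring
  have hFS : ∀ κ, κ ∉ S → ∑ i, a i * (e i κ : Ω) = 0 := by
    intro κ hκ
    rw [← hFκ]
    exact hS F hFrel κ hκ
  -- rational coordinates of the coefficients
  obtain ⟨m, α, c, hαA, hαli, hac⟩ := rat_form A a haA
  have hcS : ∀ t κ, κ ∉ S → ∑ i, c t i * e i κ = 0 := by
    intro t κ hκ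
    have h1 := hFS κ hκ
    simp only [hac, Finset.sum_mul] at h1
    rw [Finset.sum_comm] at h1
    have h2 : ∑ t, (∑ i, c t i * e i κ) • α t = 0 := by
      rw [← h1]
      apply Finset.sum_congr rfl
      intro t _
      rw [Rat.smul_def]
      push_cast
      rw [Finset.sum_mul]
      apply Finset.sum_congr rfl
      intro i _
      ring
    exact Fintype.linearIndependent_iff.mp hαli _ h2 t
  -- powers
  have hpow : ∀ t, ∃ (N : ℕ) (q : Fin r → ℤ), 1 ≤ N ∧ (∀ i, (q i : ℚ) = N * c t i) ∧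
      ∏ i, ε i ^ q i ∈ F₀ := by
    intro t
    obtain ⟨N, q, hN, hq⟩ := exists_den Finset.univ (c t)
    -- coordinates of the logarithm of the product
    let g : b → ℚ := fun κ => ∑ i, (q i : ℚ) * e i κ
    have hg : ∀ κ, κ ∉ S → g κ = 0 := by
      intro κ hκ
      have h1 : g κ = N * ∑ i, c t i * e i κ := by
        change ∑ i, (q i : ℚ) * e i κ = _
        rw [Finset.mul_sum]
        apply Finset.sum_congr rfl
        intro i hi
        rw [hq i hi]
        ring
      rw [h1, hcS t κ hκ, mul_zero]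
    have hx : IsU (∏ i, ε i ^ q i) := IsU.prod _ _ (fun i _ => (hε i).zpow _)
    have hlog : L (ι (∏ i, ε i ^ q i)) = ∑ κ ∈ S, (g κ : Ω) * L (ι (u κ)) := by
      rw [map_prod]
      simp only [map_zpow₀]
      rw [log_prod_zpow hL Finset.univ (fun i => ι (ε i)) (fun i => (hε i).map ι) q]
      have h1 : ∑ κ ∈ S, (g κ : Ω) * L (ι (u κ)) =
          ∑ κ ∈ T, (g κ : Ω) * L (ι (u κ)) := by
        have h2 : ∑ κ ∈ S, (g κ : Ω) * L (ι (u κ)) =
            ∑ κ ∈ S ∪ T, (g κ : Ω) * L (ι (u κ)) := by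
          apply Finset.sum_subset Finset.subset_union_left
          intro κ _ hκ
          rw [hg κ hκ, Rat.cast_zero, zero_mul]
        rw [h2]
        symm
        apply Finset.sum_subset Finset.subset_union_right
        intro κ _ hκ
        have h3 : g κ = 0 := by
          apply Finset.sum_eq_zero
          intro i _
          have h4 : e i κ = 0 := by
            by_contra h0
            exact hκ (hT i (Finsupp.mem_support_iff.mpr h0))
          rw [h4, mul_zero]
        rw [h3, Rat.cast_zero, zero_mul]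
      rw [h1]
      have h5 : ∀ κ, (g κ : Ω) = ∑ i, (q i : Ω) * (e i κ : Ω) := by
        intro κ
        change ((∑ i, (q i : ℚ) * e i κ : ℚ) : Ω) = _
        push_cast
        rfl
      simp only [h5, Finset.sum_mul]
      rw [Finset.sum_comm]
      apply Finset.sum_congr rfl
      intro i _
      rw [← heT i, Finset.mul_sum]
      apply Finset.sum_congr rfl
      intro κ _
      rw [hwu κ]
      ring
    -- clear the denominators
    obtain ⟨M, n, hM, hn⟩ := exists_den S g
    have hyU : IsU (∏ κ ∈ S, u κ ^ n κ) := IsU.prod _ _ (fun κ _ => (hu κ).zpow _)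
    have hylog : L (ι (∏ κ ∈ S, u κ ^ n κ)) = M * L (ι (∏ i, ε i ^ q i)) := by
      rw [hlog, map_prod]
      simp only [map_zpow₀]
      rw [log_prod_zpow hL S (fun κ => ι (u κ)) (fun κ => (hu κ).map ι) n, Finset.mul_sum]
      apply Finset.sum_congr rfl
      intro κ hκ
      have h6 := congrArg (fun z : ℚ => (z : Ω)) (hn κ hκ)
      push_cast at h6
      rw [h6]
      ring
    have hzU : IsU ((∏ i, ε i ^ q i) ^ M * (∏ κ ∈ S, u κ ^ n κ)⁻¹) :=
      (hx.pow M).mul hyU.inv'
    have hz0 : L (ι ((∏ i, ε i ^ q i) ^ M * (∏ κ ∈ S, u κ ^ n κ)⁻¹)) = 0 := by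
      have h7 : ι ((∏ i, ε i ^ q i) ^ M * (∏ κ ∈ S, u κ ^ n κ)⁻¹) =
          ι (∏ i, ε i ^ q i) ^ M * (ι (∏ κ ∈ S, u κ ^ n κ)) ^ (-1 : ℤ) := by
        rw [map_mul, map_pow, map_inv₀, zpow_neg_one]
      rw [h7, hL.mul _ _ (pow_ne_zero _ (hx.map ι).ne) (zpow_ne_zero _ (hyU.map ι).ne),
        hL.pow (hx.map ι).ne, hL.zpow (hyU.map ι).ne, hylog]
      push_cast
      ring
    obtain ⟨l, hl, hl1⟩ := hL.tors _ (hzU.map ι) hz0
    have hl2 : ((∏ i, ε i ^ q i) ^ M * (∏ κ ∈ S, u κ ^ n κ)⁻¹) ^ l = 1 := by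
      apply ι.injective
      rw [map_pow, map_one, hl1]
    have hl3 : (∏ i, ε i ^ q i) ^ (M * l) = (∏ κ ∈ S, u κ ^ n κ) ^ l := by
      rw [mul_pow, inv_pow, ← pow_mul] at hl2
      exact (mul_inv_eq_one₀ (pow_ne_zero _ hyU.ne)).mp hl2
    refine ⟨M * l * N, fun i => ((M * l : ℕ) : ℤ) * q i, ?_, ?_, ?_⟩
    · exact Nat.succ_le_of_lt (Nat.mul_pos (Nat.mul_pos hM hl) hN)
    · intro i
      push_cast
      rw [hq i (Finset.mem_univ i)]
      ring
    · have h8 : ∏ i, ε i ^ (((M * l : ℕ) : ℤ) * q i) = (∏ i, ε i ^ q i) ^ (M * l) := by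
        rw [← Finset.prod_pow]
        apply Finset.prod_congr rfl
        intro i _
        rw [mul_comm, zpow_mul, zpow_natCast]
      rw [h8, hl3]
      refine pow_mem ?_ l
      apply F₀.prod_mem
      intro κ hκ
      exact zpow_mem (huF κ hκ) _
  choose N q hN hq hqF using hpow
  -- the final form
  obtain ⟨s', q₁, b₁, h1, h2, h3, h4⟩ := basis_form A.toAddSubgroup (expMod F₀ ε hε) q
    (fun t => (mem_expMod F₀ ε hε _).mpr (hqF t))
    (fun t => (((N t : ℚ)⁻¹ : ℚ) : Ω) * α t)
    (fun t => (rat_mul_mem A (hαA t) _)) a (by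
      intro i
      rw [hac i]
      apply Finset.sum_congr rfl
      intro t _
      have h5 := congrArg (fun z : ℚ => (z : Ω)) (hq t i)
      push_cast at h5
      rw [h5]
      have h6 : (N t : Ω) ≠ 0 := by
        have := hN t
        have h7 : N t ≠ 0 := by omega
        exact_mod_cast h7
      push_cast
      field_simp)
  exact ⟨s', q₁, b₁, h1, fun j => (h2 j), h3, fun j => (mem_expMod F₀ ε hε _).mp (h4 j)⟩

end gal



variable {p : ℕ} [hp : Fact p.Prime]

theorem norm_one {u : ℂ_[p]} (hu : IsU u) : ‖u‖ = 1 := by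
  have h1 : ‖u‖ ≤ 1 := Pool.Agent.W254.PA.norm_le_one_of_isIntegral p hu.int
  have h2 : ‖u⁻¹‖ ≤ 1 := Pool.Agent.W254.PA.norm_le_one_of_isIntegral p hu.inv
  rw [norm_inv] at h2
  have h3 : 0 < ‖u‖ := norm_pos_iff.mpr hu.ne
  have h4 : 1 ≤ ‖u‖ := by
    rcases inv_le_one_iff₀.mp h2 with h | h
    · linarith
    · exact h
  exact le_antisymm h1 h4

/-- units are algebraic and have a power close to `1` -/
theorem nearU {u : ℂ_[p]} (hu : IsU u) : NearU u := by
  have halg : IsAlgebraic ℚ u := by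
    convert hu.alg
  refine ⟨hu.ne, halg, ?_⟩
  intro δ hδ
  obtain ⟨v, -, hv⟩ := pre_alg halg
  have hv1 : ‖v‖ = 1 := by
    rw [← norm_ic, hv]
    exact norm_one hu
  obtain ⟨N, hN, h2⟩ := exists_pow_near p v hv1 δ hδ
  refine ⟨N, hN, ?_⟩
  rw [← hv]
  have h3 : ic p v ^ N - 1 = ic p (v ^ N - 1) := by rw [map_sub, map_pow, map_one]
  rw [h3, norm_ic]
  exact h2

/-- the logarithm on `ℂ_p` -/
theorem logSys {L : ℂ_[p] → ℂ_[p]} (hL : IsIwasawaLog p L) :
    LogSys ℂ_[p] (LtE ((LgP p (𝕂 := ℂ_[p])) : Set ℂ_[p])) L where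
  hyp := hypC
  mul := hL.mul
  mem x hx := Submodule.subset_span (Or.inr (log_mem hL (nearU hx)))
  tors x hx h0 := exists_pow_one hL (nearU hx) h0
  brumer J _ u hu hli c hc h := by
    refine brumerC hL u (fun j => nearU (hu j)) ?_ c (fun j => ?_) h
    · convert hli
    · convert hc j

end Pool.Agent.L7h5.SL
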