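import Pool.Agent.L7h5.SL.Main

/-!
# One number field for each space of coordinates (helper5)
-/

set_option autoImplicit false
set_option linter.unusedSectionVars false

namespace Pool.Agent.L7h5.SL

open Module Finset NumberField TensorProduct Pool.Agent.W254.Ab
open Pool.Agent.W289.SL Pool.Agent.W332.SL6 Pool.Agent.W332.SL7

variable {p : ℕ} [hp : Fact p.Prime]

theorem places_transport {H : Type} [Field H] [NumberField H] (K H₀ : IntermediateField ℚ H)
    (h : Subsingleton (InfinitePlace ↥(K ⊓ H₀))) : Subsingleton (InfinitePlace (low K H₀)) := by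
  let f : ↥(K ⊓ H₀) →+* low K H₀ :=
    { toFun := fun a => ⟨⟨a, a.2.2⟩, a.2.1⟩
      map_one' := rfl
      map_mul' := fun _ _ => rfl
      map_zero' := rfl
      map_add' := fun _ _ => rfl }
  refine ⟨fun w w' => ?_⟩
  have h1 : w.comap f = w'.comap f := Subsingleton.elim _ _
  apply InfinitePlace.ext
  intro a
  have h2 : f ⟨((a : H₀) : H), ⟨a.2, (a : H₀).2⟩⟩ = a := rfl
  have h3 := congrArg (fun v : InfinitePlace ↥(K ⊓ H₀) => v ⟨((a : H₀) : H), ⟨a.2, (a : H₀).2⟩⟩) h1
  simp only [InfinitePlace.comap_apply] at h3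
  rw [h2] at h3
  exact h3

section cm

variable {Q : Type} [Field Q] [Algebra ℚ Q]

/-- the subfields of a CM field which meet the real subfield in `ℚ` -/
theorem cm_place {H : Type} [Field H] [NumberField H] (K : IntermediateField ℚ H) [IsCMField K]
    (F₀ : IntermediateField ℚ Q) [Normal ℚ F₀] (j : H →+* Q)
    (hF : ∀ a : K, a ∈ maximalRealSubfield K → j (a : H) ∈ F₀ → ∃ q : ℚ, a = (q : K)) :
    Subsingleton (InfinitePlace ↥(K ⊓ part F₀ j)) := by
  classical
  let c : K →+* K := ((IsCMField.complexConj K : K ≃ₐ[maximalRealSubfield K] K) : K →+* K)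
  have hcc : ∀ a : K, c (c a) = a := fun a => IsCMField.complexConj_apply_apply K a
  have hfix : ∀ a : K, c a = a → a ∈ maximalRealSubfield K :=
    fun a ha => (IsCMField.complexConj_eq_self_iff K a).1 ha
  let i : ↥(K ⊓ part F₀ j) →+* K :=
    (IntermediateField.inclusion (inf_le_left : K ⊓ part F₀ j ≤ K) : _ →+* K)
  have hi : ∀ a, ((i a : K) : H) = (a : H) := fun a => rfl
  have hjc : ∀ a : ↥(K ⊓ part F₀ j), j ((c (i a) : K) : H) ∈ F₀ := by
    intro a
    exact stab F₀ (j.comp (algebraMap K H)) ((j.comp (algebraMap K H)).comp c) (a := i a) a.2.2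
  have hji : ∀ a : ↥(K ⊓ part F₀ j), j ((i a : K) : H) ∈ F₀ := fun a => a.2.2
  have hq : ∀ a : ↥(K ⊓ part F₀ j), ∃ q₁ q₂ : ℚ, i a + c (i a) = (q₁ : K) ∧
      i a * c (i a) = (q₂ : K) := by
    intro a
    obtain ⟨q₁, h1⟩ := hF (i a + c (i a)) (hfix _ (by rw [map_add, hcc, add_comm])) (by
      have : ((i a + c (i a) : K) : H) = ((i a : K) : H) + ((c (i a) : K) : H) := rfl
      rw [this, map_add]
      exact F₀.add_mem (hji a) (hjc a))
    obtain ⟨q₂, h2⟩ := hF (i a * c (i a)) (hfix _ (by rw [map_mul, hcc, mul_comm])) (by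
      have : ((i a * c (i a) : K) : H) = ((i a : K) : H) * ((c (i a) : K) : H) := rfl
      rw [this, map_mul]
      exact F₀.mul_mem (hji a) (hjc a))
    exact ⟨q₁, q₂, h1, h2⟩
  refine ⟨fun w w' => ?_⟩
  obtain ⟨φ, rfl⟩ : ∃ φ, InfinitePlace.mk φ = w := ⟨w.embedding, InfinitePlace.mk_embedding w⟩
  obtain ⟨ψ, rfl⟩ : ∃ ψ, InfinitePlace.mk ψ = w' := ⟨w'.embedding, InfinitePlace.mk_embedding w'⟩
  obtain ⟨φ', hφ'⟩ := exists_extend i φ
  have hφa : ∀ a, φ' (i a) = φ a := fun a => RingHom.congr_fun hφ' a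
  have hconj : ∀ a : K, φ' (c a) = (starRingEnd ℂ) (φ' a) :=
    fun a => IsCMField.complexEmbedding_complexConj K φ' a
  have key : ∀ a, ψ a = φ a ∨ ψ a = (starRingEnd ℂ) (φ a) := by
    intro a
    obtain ⟨q₁, q₂, h1, h2⟩ := hq a
    have h3 : φ a + (starRingEnd ℂ) (φ a) = (q₁ : ℂ) := by
      have := congrArg φ' h1
      rw [map_add, hconj, hφa, map_ratCast] at this
      exact this
    have h4 : φ a * (starRingEnd ℂ) (φ a) = (q₂ : ℂ) := by
      have := congrArg φ' h2
      rw [map_mul, hconj, hφa, map_ratCast] at this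
      exact this
    have h5 : a ^ 2 - (q₁ : ↥(K ⊓ part F₀ j)) * a + (q₂ : ↥(K ⊓ part F₀ j)) = 0 := by
      apply i.injective
      rw [map_add, map_sub, map_mul, map_pow, map_ratCast, map_ratCast, map_zero, ← h1, ← h2]
      ring
    have h6 := congrArg ψ h5
    rw [map_add, map_sub, map_mul, map_pow, map_ratCast, map_ratCast, map_zero, ← h3, ← h4] at h6
    have h7 : (ψ a - φ a) * (ψ a - (starRingEnd ℂ) (φ a)) = 0 := by
      linear_combination h6
    rcases mul_eq_zero.1 h7 with h8 | h8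
    · exact Or.inl (sub_eq_zero.1 h8)
    · exact Or.inr (sub_eq_zero.1 h8)
  rw [InfinitePlace.mk_eq_iff]
  by_cases h1 : ∀ a, ψ a = φ a
  · left
    ext a
    exact (h1 a).symm
  · right
    push Not at h1
    obtain ⟨a, ha⟩ := h1
    have ha' := (key a).resolve_left ha
    ext b
    rw [ComplexEmbedding.conjugate_coe_eq]
    by_contra hb
    have hb' : ψ b = φ b := (key b).resolve_right (fun h => hb h.symm)
    rcases key (a + b) with h2 | h2
    · rw [map_add, map_add, hb'] at h2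
      exact ha (add_right_cancel h2)
    · rw [map_add, map_add, map_add, ha'] at h2
      exact hb (add_left_cancel h2).symm

end cm

/-- finitely many subfields -/
theorem finite_sub (F₀ : IntermediateField ℚ (AlgebraicClosure ℚ)) (h : FiniteDimensional ℚ F₀) :
    {E : Subfield (AlgebraicClosure ℚ) | E ≤ F₀.toSubfield}.Finite := by
  refine ((Pool.Agent.N551.LF.finite_below' F₀ h).image
    (fun K => K.toSubfield)).subset ?_
  intro E hE
  refine ⟨Subfield.toIntermediateField E (fun q => ?_), ?_, ?_⟩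
  · rw [eq_ratCast]
    exact SubfieldClass.ratCast_mem E q
  · intro a ha
    exact hE ha
  · rfl

theorem fails_iff_sigma {H : Type} [Field H] [NumberField H] (K : IntermediateField ℚ H)
    (S : Set (K →+* ℂ_[p])) (χ : (H ≃ₐ[K] H) →* ℂ_[p]ˣ) :
    ¬ SigmaLeopoldt p K H S χ ↔ ∃ A : QSub ℂ_[p], FinQ A ∧ Fails A K S χ := by
  constructor
  · intro h
    unfold SigmaLeopoldt at h
    push Not at h
    obtain ⟨L, hL, x, h1, h2, h3⟩ := h
    obtain ⟨A, hA, hx⟩ := exists_coords x
    exact ⟨A, hA, L, hL, 1, x, h3, hx, h1, h2⟩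
  · rintro ⟨A, -, L, hL, y, x, h3, -, h1, h2⟩ h
    exact h3 (h L hL x h1 h2)

end Pool.Agent.L7h5.SL
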