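import Pool.Agent.L7h5.SL.Char

/-!
# Failures of the `Σ`-Leopoldt statement descend to one number field (helper5)
-/

set_option autoImplicit false
set_option linter.unusedSectionVars false

namespace Pool.Agent.L7h5.SL

open Module Finset NumberField TensorProduct Pool.Agent.W254.Ab
open Pool.Agent.W289.SL Pool.Agent.W332.SL6 Pool.Agent.W332.SL7
open Pool.Agent.W254.PA (exists_theta)

variable {p : ℕ} [hp : Fact p.Prime]

section iff

variable {H : Type} [Field H] [NumberField H] {K H₀ : IntermediateField ℚ H} [IsGalois K H]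

/-- `H` is generated by `K` and the subfield -/
theorem sup_top {χ : (H ≃ₐ[K] H) →* ℂ_[p]ˣ} (hχ : Function.Injective χ) {A : QSub ℂ_[p]}
    {y : ℂ_[p]} {x : UM p H} (hx0 : x ≠ 0) (hx : CoordsIn A y (H₀ : Set H) x)
    (hxχ : ∀ τ : H ≃ₐ[K] H, actLin p (τ : H →+* H) x = ((χ τ : ℂ_[p]ˣ) : ℂ_[p]) • x) :
    K ⊔ H₀ = ⊤ := by
  let E : IntermediateField K H := IntermediateField.extendScalars (le_sup_left : K ≤ K ⊔ H₀)
  have h1 : E.fixingSubgroup = ⊥ := by
    rw [eq_bot_iff]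
    intro g hg
    rw [IntermediateField.mem_fixingSubgroup_iff] at hg
    have h2 : ∀ a ∈ H₀, g a = a := by
      intro a ha
      apply hg a
      rw [IntermediateField.mem_extendScalars]
      exact (le_sup_right : H₀ ≤ K ⊔ H₀) ha
    have h3 := act_fix hx g h2
    rw [hxχ g] at h3
    have h4 : (((χ g : ℂ_[p]ˣ) : ℂ_[p]) - 1) • x = 0 := by
      rw [sub_smul, one_smul, h3, sub_self]
    have h5 := (smul_eq_zero.1 h4).resolve_right hx0
    rw [Subgroup.mem_bot]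
    apply hχ
    rw [map_one]
    exact Units.ext (sub_eq_zero.1 h5)
  have h6 : E = ⊤ := by
    rw [← IsGalois.fixedField_fixingSubgroup E, h1, IntermediateField.fixedField_bot]
  rw [eq_top_iff]
  intro a _
  have h7 : a ∈ E := by
    rw [h6]
    exact IntermediateField.mem_top
  rwa [IntermediateField.mem_extendScalars] at h7

/-- restrictions to `K ∩ H₀` -/
def resS (K H₀ : IntermediateField ℚ H) (S : Set (K →+* ℂ_[p])) : Set (low K H₀ →+* ℂ_[p]) :=
  {σ₀ | ∃ σ ∈ S, ∀ (a : low K H₀) (b : K), ((a : H₀) : H) = (b : H) → σ₀ a = σ b}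

/-- compatible characters -/
def Compat (K H₀ : IntermediateField ℚ H) (χ : (H ≃ₐ[K] H) →* ℂ_[p]ˣ)
    (χ₀ : (H₀ ≃ₐ[low K H₀] H₀) →* ℂ_[p]ˣ) : Prop :=
  ∀ (g : H ≃ₐ[K] H) (g₀ : H₀ ≃ₐ[low K H₀] H₀), (∀ a : H₀, g (a : H) = ((g₀ a : H₀) : H)) →
    χ g = χ₀ g₀

/-- a failure descends -/
theorem fails_down (hst : ∀ (g : H ≃ₐ[K] H), ∀ a ∈ H₀, g a ∈ H₀)
    {χ : (H ≃ₐ[K] H) →* ℂ_[p]ˣ} (hχ : Function.Injective χ) {A : QSub ℂ_[p]}
    {S : Set (K →+* ℂ_[p])} {L : ℂ_[p] → ℂ_[p]} (hL : IsIwasawaLog p L) {y : ℂ_[p]} {x : UM p H}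
    (hx0 : x ≠ 0) (hx : CoordsIn A y (H₀ : Set H) x) (hk : InKernel S χ hL x) :
    K ⊔ H₀ = ⊤ ∧ IsGalois (low K H₀) H₀ ∧ ∃ χ₀ : (H₀ ≃ₐ[low K H₀] H₀) →* ℂ_[p]ˣ,
      Function.Injective χ₀ ∧ Compat K H₀ χ χ₀ ∧ Fails A (low K H₀) (resS K H₀ S) χ₀ := by
  have htop := sup_top hχ hx0 hx hk.1
  haveI := low_galois hst
  refine ⟨htop, inferInstance, ?_⟩
  let e : (H ≃ₐ[K] H) ≃* (H₀ ≃ₐ[low K H₀] H₀) :=
    MulEquiv.ofBijective (res K H₀ hst) ⟨res_injective hst htop, res_surjective hst⟩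
  have he : ∀ g, e g = res K H₀ hst g := fun g => rfl
  obtain ⟨x₀, hx₀, hpush⟩ := exists_lift hx
  obtain ⟨θ⟩ := exists_theta p
  refine ⟨χ.comp e.symm.toMonoidHom, ?_, ?_, L, hL, y, x₀, ?_, hx₀, ?_, ?_⟩
  · exact hχ.comp e.symm.injective
  · intro g g₀ h
    have h1 : e g = g₀ := by
      rw [he]
      ext a
      rw [res_coe]
      exact h a
    change χ g = χ (e.symm g₀)
    rw [← h1, e.symm_apply_apply]
  · intro h
    apply hx0
    rw [← hpush, h, map_zero]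
  · intro g₀
    -- the action
    obtain ⟨g, rfl⟩ := e.surjective g₀
    have h1 : (χ.comp e.symm.toMonoidHom) (e g) = χ g := by
      change χ (e.symm (e g)) = χ g
      rw [e.symm_apply_apply]
    rw [h1]
    have h2 : push (algebraMap H₀ H) (actLin p ((e g : H₀ ≃ₐ[low K H₀] H₀) : H₀ →+* H₀) x₀) =
        push (algebraMap H₀ H) (((χ g : ℂ_[p]ˣ) : ℂ_[p]) • x₀) := by
      rw [map_smul, hpush, ← hk.1 g, actLin_eq, actLin_eq, ← hpush, push_push, push_push]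
      congr 1
    have h3 := push_injective θ (algebraMap H₀ H)
      (actLin p ((e g : H₀ ≃ₐ[low K H₀] H₀) : H₀ →+* H₀) x₀ - ((χ g : ℂ_[p]ˣ) : ℂ_[p]) • x₀)
      (by rw [map_sub, h2, sub_self])
    exact sub_eq_zero.1 h3
  · -- the logarithms
    intro σ₀ hσ₀
    obtain ⟨σ, hσS, hσ⟩ := hσ₀
    obtain ⟨s, hs⟩ := exists_ext (H := H) σ
    have h1 : σ₀.comp (algebraMap (low K H₀) H₀) =
        (s.comp (algebraMap H₀ H)).comp (algebraMap (low K H₀) H₀) := by
      ext a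
      have h2 := hσ a ⟨((a : H₀) : H), a.2⟩ rfl
      rw [h2, ← hs]
      rfl
    obtain ⟨g₀, hg₀⟩ := exists_aut σ₀ (s.comp (algebraMap H₀ H)) h1
    obtain ⟨g, rfl⟩ := e.surjective g₀
    rw [hg₀]
    have h3 : (s.comp (algebraMap H₀ H)).comp ((e g : H₀ ≃ₐ[low K H₀] H₀) : H₀ →+* H₀) =
        (s.comp (g : H →+* H)).comp (algebraMap H₀ H) := by
      ext a
      rfl
    rw [h3, ← logLin_push, hpush]
    refine hk.2 _ ?_
    have h4 : (s.comp (g : H →+* H)).comp (algebraMap K H) = σ := by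
      rw [← hs]
      ext k
      change s (g (algebraMap K H k)) = s (algebraMap K H k)
      rw [AlgEquiv.commutes]
    rw [h4]
    exact hσS

/-- a failure goes up -/
theorem fails_up (hst : ∀ (g : H ≃ₐ[K] H), ∀ a ∈ H₀, g a ∈ H₀)
    {χ : (H ≃ₐ[K] H) →* ℂ_[p]ˣ} {χ₀ : (H₀ ≃ₐ[low K H₀] H₀) →* ℂ_[p]ˣ} (hc : Compat K H₀ χ χ₀)
    {A : QSub ℂ_[p]} {S : Set (K →+* ℂ_[p])} (hf : Fails A (low K H₀) (resS K H₀ S) χ₀) :
    Fails A K S χ := by
  obtain ⟨L, hL, y, x₀, hx0, hx, hk⟩ := hf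
  obtain ⟨θ⟩ := exists_theta p
  refine ⟨L, hL, y, push (algebraMap H₀ H) x₀, ?_, coords_push_univ _ hx, ?_, ?_⟩
  · intro h
    exact hx0 (push_injective θ _ _ h)
  · intro g
    have h1 := hc g (res K H₀ hst g) (fun a => (res_coe hst g a).symm)
    have h2 : (g : H →+* H).comp (algebraMap H₀ H) =
        (algebraMap H₀ H).comp ((res K H₀ hst g : H₀ ≃ₐ[low K H₀] H₀) : H₀ →+* H₀) := by
      ext a
      rfl
    rw [actLin_eq, push_push, h2, ← push_push, ← actLin_eq, hk.1, map_smul, h1]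
  · intro σ hσ
    rw [logLin_push]
    refine hk.2 _ ⟨_, hσ, ?_⟩
    intro a b hab
    change σ ((a : H₀) : H) = σ (b : H)
    rw [hab]

/-- the degree -/
theorem degree_le (htop : K ⊔ H₀ = ⊤) : finrank K H ≤ finrank ℚ H₀ := by
  have h1 := IntermediateField.finrank_sup_le K H₀
  rw [htop, IntermediateField.finrank_top'] at h1
  have h2 := Module.finrank_mul_finrank ℚ K H
  have h3 : 0 < finrank ℚ K := Module.finrank_pos
  rw [← h2] at h1
  exact Nat.le_of_mul_le_mul_left h1 h3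

end iff

section place

variable {H : Type} [Field H] [NumberField H] {K : IntermediateField ℚ H} [IsGalois K H]

/-- **Baker-Brumer.** There is no failure if `K` has only one infinite place. -/
theorem one_place (hK : Subsingleton (InfinitePlace K)) (χ : (H ≃ₐ[K] H) →* ℂ_[p]ˣ)
    {S : Set (K →+* ℂ_[p])} (hS : S.Nonempty) {L : ℂ_[p] → ℂ_[p]} (hL : IsIwasawaLog p L)
    (x : UM p H) (hk : InKernel S χ hL x) : x = 0 := by
  classical
  by_contra hx0
  obtain ⟨θ⟩ := exists_theta p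
  have hχx : InChi χ x := hk.1
  -- a projection of a unit which does not vanish
  obtain ⟨u, hu⟩ : ∃ u : Additive (𝓞 H)ˣ, xu χ u ≠ 0 := by
    by_contra hcon
    push Not at hcon
    obtain ⟨b, hb⟩ := decomp x
    have h1 : ∑ g : H ≃ₐ[K] H, ((χ g⁻¹ : ℂ_[p]ˣ) : ℂ_[p]) • actLin p (g : H →+* H) x =
        (Fintype.card (H ≃ₐ[K] H) : ℂ_[p]) • x := by
      have h2 : ∀ g : H ≃ₐ[K] H, ((χ g⁻¹ : ℂ_[p]ˣ) : ℂ_[p]) • actLin p (g : H →+* H) x = x := by
        intro g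
        rw [hk.1 g, smul_smul, ← Units.val_mul, ← map_mul, inv_mul_cancel, map_one, Units.val_one,
          one_smul]
      rw [Finset.sum_congr rfl (fun g _ => h2 g), Finset.sum_const, Finset.card_univ,
        Nat.cast_smul_eq_nsmul]
    have h3 : ∑ g : H ≃ₐ[K] H, ((χ g⁻¹ : ℂ_[p]ˣ) : ℂ_[p]) • actLin p (g : H →+* H) x =
        ∑ k, b k • xu χ (fu H k) := by
      have h4 : ∀ g : H ≃ₐ[K] H, ((χ g⁻¹ : ℂ_[p]ˣ) : ℂ_[p]) • actLin p (g : H →+* H) x =
          ∑ k, b k • (((χ g⁻¹ : ℂ_[p]ˣ) : ℂ_[p]) • ((1 : ℂ_[p]) ⊗ₜ[ℤ] uMap (g : H →+* H) (fu H k))) := by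
        intro g
        rw [hb, actLin_eq, map_sum, Finset.smul_sum]
        refine Finset.sum_congr rfl fun k _ => ?_
        rw [map_smul, push_tmul, smul_comm]
      rw [Finset.sum_congr rfl (fun g _ => h4 g), Finset.sum_comm]
      refine Finset.sum_congr rfl fun k _ => ?_
      rw [← Finset.smul_sum]
      rfl
    rw [h3, Finset.sum_eq_zero (fun k _ => by rw [hcon, smul_zero])] at h1
    have h5 : (Fintype.card (H ≃ₐ[K] H) : ℂ_[p]) ≠ 0 := by
      exact_mod_cast Fintype.card_pos.ne'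
    exact hx0 ((smul_eq_zero.1 h1.symm).resolve_left h5)
  -- real logarithms are injective on the `χ`-part
  obtain ⟨s⟩ : Nonempty (H →+* ℂ) := inferInstance
  have hinj : ∀ z : UM p H, InChi χ z → lam θ s z = 0 → z = 0 := by
    intro z hz h0
    apply eq_zero_of_lam θ
    intro t
    exact lam_zero_of_place θ hz t s (Subsingleton.elim _ _) h0
  have h1 : lam θ s (xu χ u) ≠ 0 := fun h => hu (hinj _ (xu_inChi χ u) h)
  -- proportional
  have h2 : lam θ s (xu χ u) • x - lam θ s x • xu χ u = 0 := by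
    apply hinj
    · exact (hχx.smul _).sub ((xu_inChi χ u).smul _)
    · rw [map_sub, map_smul, map_smul, smul_eq_mul, smul_eq_mul]
      ring
  obtain ⟨τ, hτ⟩ := hS
  obtain ⟨σ, hσ⟩ := exists_ext (H := H) τ
  have h3 : logLin hL σ x = 0 := hk.2 σ (by rw [hσ]; exact hτ)
  have h4 := congrArg (logLin hL σ) h2
  rw [map_sub, map_smul, map_smul, h3, smul_zero, zero_sub, map_zero, neg_eq_zero,
    smul_eq_mul] at h4
  have h5 : lam θ s x ≠ 0 := fun h => hx0 (hinj x hχx h)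
  exact hu (eq_zero_of_log hL σ (xu_mem_AU χ u) ((mul_eq_zero.1 h4).resolve_left h5))

end place

end Pool.Agent.L7h5.SL
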