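import Pool.Agent.L7h5.SL.All

/-!
# One number field for each space of coordinates: short form of the statement (helper5)
-/

set_option autoImplicit false
set_option linter.unusedSectionVars false

namespace Pool.Agent.L7h5.SL

open NumberField Module Pool.Agent.W289.SL Pool.Agent.W332.SL6 Pool.Agent.W332.SL7

/-- embeddings of `K` into `ℂ_p` -/
def Emb (p : ℕ) [Fact p.Prime] (K : Type) [Field K] : Type := K →+* ℂ_[p]

/-- embeddings of `H` into the field of algebraic numbers -/
def EmbQ (H : Type) [Field H] : Type := H →+* AlgebraicClosure ℚ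

/-- the image of an element -/
noncomputable def EmbQ.at {H : Type} [Field H] (j : EmbQ H) (a : H) : AlgebraicClosure ℚ :=
  (id j : H →+* AlgebraicClosure ℚ) a

/-- characters of `Gal(H/K)` with values in `ℂ_p` -/
def Chr (p : ℕ) [Fact p.Prime] (K H : Type) [Field K] [Field H] [Algebra K H] : Type :=
  (H ≃ₐ[K] H) →* ℂ_[p]ˣ

/-- the value of a character -/
noncomputable def Chr.at {p : ℕ} [Fact p.Prime] {K H : Type} [Field K] [Field H] [Algebra K H]
    (χ : Chr p K H) (g : H ≃ₐ[K] H) : ℂ_[p]ˣ := (id χ : (H ≃ₐ[K] H) →* ℂ_[p]ˣ) g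

/-- vector spaces of elements of `ℂ_p` over the field of algebraic numbers -/
def Space (p : ℕ) [Fact p.Prime] : Type := QSub ℂ_[p]

/-- the space has finite dimension -/
def Space.Fin {p : ℕ} [Fact p.Prime] (A : Space p) : Prop := FinQ (Ω := ℂ_[p]) A

/-- `x` is a sum of tensors `(y a) ⊗ u` with `a ∈ A` and units `u` of `H` which belong to `E` -/
def Coord {p : ℕ} [Fact p.Prime] {H : Type} [Field H] [NumberField H] (A : Space p) (y : ℂ_[p])
    (E : Set H) (x : UM p H) : Prop :=
  CoordsIn (p := p) A y E x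

/-- the character is faithful -/
def Faithful {p : ℕ} [Fact p.Prime] {K H : Type} [Field K] [Field H] [Algebra K H]
    (χ : Chr p K H) : Prop :=
  Function.Injective χ.at

/-- the `S`-Leopoldt statement for `χ` -/
def HoldsT {p : ℕ} [Fact p.Prime] {K H : Type} [Field K] [Field H] [NumberField H] [Algebra K H]
    (S : Set (Emb p K)) (χ : Chr p K H) : Prop :=
  SigmaLeopoldt p K H S χ

/-- there is a nonzero vector in the `χ`-part of `ℂ_p ⊗ 𝓞_H^×` with coordinates in `y A` for some
`y`, killed by the logarithms for all embeddings of `H` which extend an element of `S` -/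
def FailsT {p : ℕ} [Fact p.Prime] (A : Space p) {K H : Type} [Field K] [Field H] [NumberField H]
    [Algebra K H] (S : Set (Emb p K)) (χ : Chr p K H) : Prop :=
  ∃ (L : ℂ_[p] → ℂ_[p]) (hL : IsIwasawaLog p L) (y : ℂ_[p]) (x : UM p H), x ≠ 0 ∧
    Coord A y Set.univ x ∧ InKernel S χ hL x

/-- number fields `K ⊆ H`, `H/K` Galois, a nonempty set `S` of embeddings of `K` into `ℂ_p` and a
faithful character `χ` of `Gal(H/K)` with values in `ℂ_p` -/
structure Datum (p : ℕ) [Fact p.Prime] where
  K : Type
  H : Type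
  fK : Field K
  nK : NumberField K
  fH : Field H
  nH : NumberField H
  alg : Algebra K H
  gal : IsGalois K H
  S : Set (Emb p K)
  ne : S.Nonempty
  χ : Chr p K H
  inj : Faithful χ

attribute [instance] Datum.fK Datum.nK Datum.fH Datum.nH Datum.alg Datum.gal

variable {p : ℕ} [hp : Fact p.Prime]

/-- the `S`-Leopoldt statement for `χ` -/
def Datum.Holds (D : Datum p) : Prop := HoldsT D.S D.χ

/-- the statement fails for a vector with coordinates in a multiple of `A` -/
def Datum.Fails (D : Datum p) (A : Space p) : Prop := FailsT A D.S D.χ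

/-- `H` embeds into `F₀` -/
def Inside (H : Type) [Field H] (F₀ : Subfield (AlgebraicClosure ℚ)) : Prop :=
  Nonempty (H →+* F₀)

/-- the automorphisms of `H/K` which are trivial on `H ∩ F₀` are trivial; so `H = K (H ∩ F₀)` -/
def Generated (K H : Type) [Field K] [Field H] [Algebra K H]
    (F₀ : Subfield (AlgebraicClosure ℚ)) (j : EmbQ H) : Prop :=
  ∀ g : H ≃ₐ[K] H, (∀ a : H, j.at a ∈ F₀ → g a = a) → g = 1

/-- `K ∩ F₀` has two different infinite places -/
def TwoPlaces (K H : Type) [Field K] [Field H] [Algebra K H]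
    (F₀ : Subfield (AlgebraicClosure ℚ)) (j : EmbQ H) : Prop :=
  ∃ φ ψ : K →+* ℂ,
    (∃ a : K, j.at (algebraMap K H a) ∈ F₀ ∧ φ a ≠ ψ a) ∧
    ∃ a : K, j.at (algebraMap K H a) ∈ F₀ ∧
      φ a ≠ (starRingEnd ℂ) (ψ a)

/-- if `K` is a CM field then its maximal real subfield meets `F₀` in a field larger than `ℚ` -/
def RealPart (K H : Type) [Field K] [CharZero K] [Field H] [Algebra K H]
    (F₀ : Subfield (AlgebraicClosure ℚ)) (j : EmbQ H) : Prop :=
  IsCMField K → ∃ a ∈ maximalRealSubfield K,
    j.at (algebraMap K H a) ∈ F₀ ∧ ∀ q : ℚ, a ≠ (q : K)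

/-- `k` is the image of `K` in the field of algebraic numbers -/
def ImageK (K H : Type) [Field K] [Field H] [Algebra K H] (j : EmbQ H)
    (k : Subfield (AlgebraicClosure ℚ)) : Prop :=
  ∀ z, z ∈ k ↔ ∃ a : K, j.at (algebraMap K H a) = z

/-- `E` is the image of `H` in the field of algebraic numbers -/
def ImageH (H : Type) [Field H] (j : EmbQ H) (E : Subfield (AlgebraicClosure ℚ)) : Prop :=
  ∀ z, z ∈ E ↔ ∃ a : H, j.at a = z

/-- `E` is the image of the maximal real subfield of `K` -/
def ImageReal (K H : Type) [Field K] [Field H] [Algebra K H] (j : EmbQ H)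
    (E : Subfield (AlgebraicClosure ℚ)) : Prop :=
  ∀ z, z ∈ E ↔ ∃ a ∈ maximalRealSubfield K, j.at (algebraMap K H a) = z

/-- vectors killed by the logarithm for one embedding of `H` come from units in `H ∩ F₀` -/
def Descends (A : Space p) (F₀ : Subfield (AlgebraicClosure ℚ)) : Prop :=
  ∀ (H : Type) [Field H] [NumberField H] (j : H →+* AlgebraicClosure ℚ)
    (L : ℂ_[p] → ℂ_[p]) (hL : IsIwasawaLog p L) (σ : H →+* ℂ_[p]) (y : ℂ_[p]) (x : UM p H),
    Coord A y Set.univ x → logLin hL σ x = 0 → Coord A y {a | j a ∈ F₀} x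

/-- the fields `H` which occur in failing data with a given field `K = k` -/
def failing (A : Space p) (k : Subfield (AlgebraicClosure ℚ)) :
    Set (Subfield (AlgebraicClosure ℚ)) :=
  {E | ∃ (D : Datum p) (j : EmbQ D.H), D.Fails A ∧ ImageK D.K D.H j k ∧ ImageH D.H j E}

/-- the maximal real subfields, without subfields except `ℚ` and the whole field, of the CM fields
`K` which occur in failing data -/
def failingReal (A : Space p) : Set (Subfield (AlgebraicClosure ℚ)) :=
  {E | (∀ M : Subfield (AlgebraicClosure ℚ), M ≤ E → M = ⊥ ∨ M = E) ∧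
    ∃ (D : Datum p) (j : EmbQ D.H), D.Fails A ∧ IsCMField D.K ∧ ImageReal D.K D.H j E}

/-- `F₀` decides on all data, as far as vectors with coordinates in the multiples of `A` are
concerned -/
structure FieldOf (A : Space p) (F₀ : Subfield (AlgebraicClosure ℚ)) : Prop where
  descends : Descends A F₀
  decides : (∀ D : Datum p, Inside D.H F₀ → ¬ D.Fails A) → ∀ D : Datum p, ¬ D.Fails A
  generated : ∀ (D : Datum p) (j : EmbQ D.H), D.Fails A → Generated D.K D.H F₀ j
  degree : ∀ D : Datum p, D.Fails A → finrank D.K D.H ≤ finrank ℚ F₀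
  places : ∀ (D : Datum p) (j : EmbQ D.H), D.Fails A → TwoPlaces D.K D.H F₀ j
  real : ∀ (D : Datum p) (j : EmbQ D.H), D.Fails A → RealPart D.K D.H F₀ j

/-- `F₀` is a number field, normal over `ℚ` -/
def NormalNumberField (F₀ : Subfield (AlgebraicClosure ℚ)) : Prop :=
  FiniteDimensional ℚ F₀ ∧ Normal ℚ F₀

end Pool.Agent.L7h5.SL
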