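import Pool.Agent.L7h5.SL.Stmt

/-!
# One number field for each space of coordinates: proof of the short form (helper5)
-/

set_option autoImplicit false
set_option linter.unusedSectionVars false

namespace Pool.Agent.L7h5.SL

open NumberField Module TensorProduct Pool.Agent.W289.SL Pool.Agent.W332.SL6 Pool.Agent.W332.SL7

variable {p : ℕ} [hp : Fact p.Prime]

section transfer

variable {K H : Type} [Field K] [NumberField K] [Field H] [NumberField H] [Algebra K H]

/-- the image of `K` in `H` -/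
noncomputable def img (K H : Type) [Field K] [NumberField K] [Field H] [NumberField H]
    [Algebra K H] : IntermediateField ℚ H := ((algebraMap K H).toRatAlgHom).fieldRange

/-- `K` is isomorphic to its image -/
noncomputable def eqv (K H : Type) [Field K] [NumberField K] [Field H] [NumberField H]
    [Algebra K H] : K ≃ₐ[ℚ] img K H := AlgEquiv.ofInjectiveField ((algebraMap K H).toRatAlgHom)

theorem eqv_coe (a : K) : ((eqv K H a : img K H) : H) = algebraMap K H a := rfl

/-- automorphisms over the image -/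
def ovr : (H ≃ₐ[img K H] H) →* (H ≃ₐ[K] H) where
  toFun g := { g with commutes' := fun k => g.commutes (eqv K H k) }
  map_one' := rfl
  map_mul' _ _ := rfl

theorem ovr_apply (g : H ≃ₐ[img K H] H) (a : H) : ovr g a = g a := rfl

theorem ovr_injective : Function.Injective (ovr (K := K) (H := H)) := by
  intro g g' h
  ext a
  rw [← ovr_apply, h, ovr_apply]

theorem galois_img [IsGalois K H] : IsGalois (img K H) H := by
  letI : Algebra K (img K H) := ((eqv K H : K ≃ₐ[ℚ] img K H) : K →+* img K H).toAlgebra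
  haveI : IsScalarTower K (img K H) H := IsScalarTower.of_algebraMap_eq fun a => rfl
  exact IsGalois.tower_top_of_isGalois K (img K H) H

theorem finrank_img : finrank K H = finrank (img K H) H := by
  have h1 := Module.finrank_mul_finrank ℚ K H
  have h2 := Module.finrank_mul_finrank ℚ (img K H) H
  have h3 : finrank ℚ K = finrank ℚ (img K H) := (eqv K H).toLinearEquiv.finrank_eq
  have h4 : 0 < finrank ℚ K := Module.finrank_pos
  rw [← h1, ← h3] at h2
  exact (Nat.eq_of_mul_eq_mul_left h4 h2).symm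

/-- the embeddings of the image -/
def setS (S : Set (K →+* ℂ_[p])) : Set (img K H →+* ℂ_[p]) :=
  {σ | σ.comp ((eqv K H : K ≃ₐ[ℚ] img K H) : K →+* img K H) ∈ S}

theorem setS_nonempty {S : Set (K →+* ℂ_[p])} (hS : S.Nonempty) :
    (setS (H := H) S).Nonempty := by
  obtain ⟨σ, hσ⟩ := hS
  refine ⟨σ.comp ((eqv K H).symm : img K H →+* K), ?_⟩
  have h1 : (σ.comp ((eqv K H).symm : img K H →+* K)).comp
      ((eqv K H : K ≃ₐ[ℚ] img K H) : K →+* img K H) = σ := by
    ext a
    change σ ((eqv K H).symm (eqv K H a)) = σ a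
    rw [AlgEquiv.symm_apply_apply]
  change _ ∈ S
  rw [h1]
  exact hσ

theorem fails_img {A : QSub ℂ_[p]} {S : Set (K →+* ℂ_[p])} {χ : (H ≃ₐ[K] H) →* ℂ_[p]ˣ}
    {L : ℂ_[p] → ℂ_[p]} (hL : IsIwasawaLog p L) {y : ℂ_[p]} {x : UM p H} (hx0 : x ≠ 0)
    (hx : CoordsIn A y Set.univ x) (hk : InKernel S χ hL x) :
    Fails A (img K H) (setS S) (χ.comp ovr) := by
  refine ⟨L, hL, y, x, hx0, hx, ?_, ?_⟩
  · intro τ
    exact hk.1 (ovr τ)
  · intro σ hσ
    refine hk.2 σ ?_
    exact hσ

end transfer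

section lemmas

variable {H : Type} [Field H] [NumberField H]

theorem act_fix' {H₀ : Set H} {A : QSub ℂ_[p]} {y : ℂ_[p]} {x : UM p H}
    (hx : CoordsIn A y H₀ x) (g : H →+* H) (hg : ∀ a ∈ H₀, g a = a) :
    actLin p g x = x := by
  obtain ⟨r, a, u, ha, hu, rfl⟩ := coords_form hx
  rw [actLin_eq, map_sum]
  refine Finset.sum_congr rfl fun i _ => ?_
  rw [push_tmul]
  congr 1
  apply Additive.toMul.injective
  apply Units.ext
  apply RingOfIntegers.ext
  exact hg _ (hu i)

end lemmas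

section real

variable {K H : Type} [Field K] [NumberField K] [Field H] [NumberField H] [Algebra K H]

theorem real_of_places (F₀ : IntermediateField ℚ (AlgebraicClosure ℚ)) [Normal ℚ F₀]
    (j : EmbQ H) (h : TwoPlaces K H F₀.toSubfield j) : RealPart K H F₀.toSubfield j := by
  intro hCM
  by_contra hF
  push Not at hF
  obtain ⟨φ, ψ, ⟨a₀, ha₀, hne⟩, b₀, hb₀, hne'⟩ := h
  let j' : H →+* AlgebraicClosure ℚ := j
  let c : K →+* K := ((IsCMField.complexConj K : K ≃ₐ[maximalRealSubfield K] K) : K →+* K)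
  have hcc : ∀ a : K, c (c a) = a := fun a => IsCMField.complexConj_apply_apply K a
  have hfix : ∀ a : K, c a = a → a ∈ maximalRealSubfield K :=
    fun a ha => (IsCMField.complexConj_eq_self_iff K a).1 ha
  have hconj : ∀ a : K, φ (c a) = (starRingEnd ℂ) (φ a) :=
    fun a => IsCMField.complexEmbedding_complexConj K φ a
  have key : ∀ a : K, j' (algebraMap K H a) ∈ F₀ → ψ a = φ a ∨ ψ a = (starRingEnd ℂ) (φ a) := by
    intro a ha
    have hca : j' (algebraMap K H (c a)) ∈ F₀ :=
      stab F₀ (j'.comp (algebraMap K H)) ((j'.comp (algebraMap K H)).comp c) (a := a) ha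
    obtain ⟨q₁, h1⟩ := hF (a + c a) (hfix _ (by rw [map_add, hcc, add_comm])) (by
      change j' (algebraMap K H (a + c a)) ∈ F₀
      rw [map_add, map_add]
      exact F₀.add_mem ha hca)
    obtain ⟨q₂, h2⟩ := hF (a * c a) (hfix _ (by rw [map_mul, hcc, mul_comm])) (by
      change j' (algebraMap K H (a * c a)) ∈ F₀
      rw [map_mul, map_mul]
      exact F₀.mul_mem ha hca)
    have h3 : φ a + (starRingEnd ℂ) (φ a) = (q₁ : ℂ) := by
      have := congrArg φ h1
      rw [map_add, hconj, map_ratCast] at this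
      exact this
    have h4 : φ a * (starRingEnd ℂ) (φ a) = (q₂ : ℂ) := by
      have := congrArg φ h2
      rw [map_mul, hconj, map_ratCast] at this
      exact this
    have h5 : a ^ 2 - (q₁ : K) * a + (q₂ : K) = 0 := by
      rw [← h1, ← h2]
      ring
    have h6 := congrArg ψ h5
    rw [map_add, map_sub, map_mul, map_pow, map_ratCast, map_ratCast, map_zero, ← h3, ← h4] at h6
    have h7 : (ψ a - φ a) * (ψ a - (starRingEnd ℂ) (φ a)) = 0 := by
      linear_combination h6
    rcases mul_eq_zero.1 h7 with h8 | h8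
    · exact Or.inl (sub_eq_zero.1 h8)
    · exact Or.inr (sub_eq_zero.1 h8)
  have h1 := (key a₀ ha₀).resolve_left (fun h => hne h.symm)
  have h2 : ψ b₀ = φ b₀ := by
    refine (key b₀ hb₀).resolve_right (fun h => hne' ?_)
    rw [h, Complex.conj_conj]
  rcases key (a₀ + b₀) (by
      rw [map_add, map_add]
      exact F₀.add_mem ha₀ hb₀) with h3 | h3
  · rw [map_add, map_add, h2] at h3
    exact hne (add_right_cancel h3).symm
  · rw [map_add, map_add, map_add, h1] at h3
    have h4 := add_left_cancel h3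
    apply hne'
    rw [h4, Complex.conj_conj]

theorem places_of_sub (F₀ : IntermediateField ℚ (AlgebraicClosure ℚ)) (j : EmbQ H)
    (h : ¬ Subsingleton (InfinitePlace ↥(img K H ⊓ part F₀ j))) :
    TwoPlaces K H F₀.toSubfield j := by
  rw [not_subsingleton_iff_nontrivial] at h
  obtain ⟨w, w', hww⟩ := h
  let i : ↥(img K H ⊓ part F₀ j) →+* K :=
    (((eqv K H).symm : img K H →+* K)).comp
      (IntermediateField.inclusion (inf_le_left : img K H ⊓ part F₀ j ≤ img K H) : _ →+* img K H)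
  have hi : ∀ a : ↥(img K H ⊓ part F₀ j), algebraMap K H (i a) = (a : H) := by
    intro a
    rw [← eqv_coe]
    have h1 : eqv K H (i a) = ⟨(a : H), a.2.1⟩ := (eqv K H).apply_symm_apply _
    rw [h1]
  obtain ⟨φ, hφ⟩ := exists_extend i w.embedding
  obtain ⟨ψ, hψ⟩ := exists_extend i w'.embedding
  have hmk : ∀ a : ↥(img K H ⊓ part F₀ j),
      j.at (algebraMap K H (i a)) ∈ F₀.toSubfield := by
    intro a
    rw [hi]
    exact a.2.2
  have h1 : ¬ (w.embedding = w'.embedding ∨ ComplexEmbedding.conjugate w.embedding = w'.embedding) := by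
    rw [← InfinitePlace.mk_eq_iff, InfinitePlace.mk_embedding, InfinitePlace.mk_embedding]
    exact hww
  push Not at h1
  obtain ⟨h2, h3⟩ := h1
  refine ⟨φ, ψ, ?_, ?_⟩
  · by_contra hcon
    push Not at hcon
    apply h2
    ext a
    have h4 := hcon (i a) (hmk a)
    rw [← hφ, ← hψ]
    exact h4
  · by_contra hcon
    push Not at hcon
    apply h3
    ext a
    have h4 := hcon (i a) (hmk a)
    rw [ComplexEmbedding.conjugate_coe_eq, ← hφ, ← hψ]
    change (starRingEnd ℂ) (φ (i a)) = ψ (i a)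
    rw [h4, Complex.conj_conj]

end real

theorem inj_ovr (D : Datum p) : Function.Injective
    ((id D.χ : (D.H ≃ₐ[D.K] D.H) →* ℂ_[p]ˣ).comp (ovr (K := D.K) (H := D.H))) := by
  have h1 : Function.Injective (id D.χ : (D.H ≃ₐ[D.K] D.H) →* ℂ_[p]ˣ) := D.inj
  exact h1.comp ovr_injective

theorem holds_iff (D : Datum p) : ¬ D.Holds ↔ ∃ A : Space p, A.Fin ∧ D.Fails A := by
  constructor
  · intro h
    unfold Datum.Holds HoldsT SigmaLeopoldt at h
    push Not at h
    obtain ⟨L, hL, x, h1, h2, h3⟩ := h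
    obtain ⟨A, hA, hx⟩ := exists_coords x
    exact ⟨A, hA, L, hL, 1, x, h3, hx, h1, h2⟩
  · rintro ⟨A, -, L, hL, y, x, h3, -, h1, h2⟩ h
    exact h3 (h L hL x h1 h2)

/-- **Main theorem.** -/
theorem exists_fieldOf (A : Space p) (hA : A.Fin) : ∃ F₀ : Subfield (AlgebraicClosure ℚ),
    NormalNumberField F₀ ∧ FieldOf A F₀ ∧
      (∀ k : Subfield (AlgebraicClosure ℚ), (failing A k).Finite) ∧ (failingReal A).Finite := by
  obtain ⟨F₀, hfin, hN, hD⟩ := descend_vec (p := p) A hA
  have hreal : ∀ (D : Datum p) (j : EmbQ D.H), D.Fails A →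
      TwoPlaces D.K D.H F₀.toSubfield j := by
    rintro D j ⟨L, hL, y, x, hx0, hx, hk⟩
    haveI : IsGalois (img D.K D.H) D.H := galois_img
    exact places_of_sub F₀ j (not_sub hD j (setS_nonempty D.ne)
      (inj_ovr D) (fails_img hL hx0 hx hk))
  have hF : ∀ (D : Datum p) (j : EmbQ D.H), D.Fails A → RealPart D.K D.H F₀.toSubfield j :=
    fun D j h => real_of_places F₀ j (hreal D j h)
  refine ⟨F₀.toSubfield, ⟨hfin, hN⟩, ⟨hD, ?_, ?_, ?_, hreal, hF⟩, ?_, ?_⟩
  · rintro h D ⟨L, hL, y, x, hx0, hx, hk⟩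
    haveI : IsGalois (img D.K D.H) D.H := galois_img
    refine decides hN hfin hD ?_ (img D.K D.H) (setS D.S) _ (setS_nonempty D.ne)
      (inj_ovr D) (fails_img hL hx0 hx hk)
    intro H _ _ j K _ S χ hS hχ hf
    exact h ⟨K, H, inferInstance, inferInstance, inferInstance, inferInstance, inferInstance,
      inferInstance, S, hS, χ, hχ⟩ ⟨j⟩ hf
  · rintro D j ⟨L, hL, y, x, hx0, hx, hk⟩ g hg
    obtain ⟨τ, hτ⟩ := D.ne
    obtain ⟨σ, hσ⟩ := exists_ext (H := D.H) (id τ : D.K →+* ℂ_[p])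
    have h1 := hD D.H j L hL σ y x hx (hk.2 σ (by rw [hσ]; exact hτ))
    have h3 := act_fix' h1 (g : D.H →+* D.H) hg
    have h4 : (((D.χ.at g : ℂ_[p]ˣ) : ℂ_[p]) - 1) • x = 0 := by
      have h6 : actLin p (g : D.H →+* D.H) x = ((D.χ.at g : ℂ_[p]ˣ) : ℂ_[p]) • x := hk.1 g
      rw [sub_smul, one_smul, ← h6, h3, sub_self]
    have h5 := (smul_eq_zero.1 h4).resolve_right hx0
    apply D.inj
    have h7 : D.χ.at 1 = 1 := map_one (id D.χ : (D.H ≃ₐ[D.K] D.H) →* ℂ_[p]ˣ)
    rw [h7]
    exact Units.ext (sub_eq_zero.1 h5)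
  · rintro D ⟨L, hL, y, x, hx0, hx, hk⟩
    haveI : IsGalois (img D.K D.H) D.H := galois_img
    obtain ⟨j⟩ : Nonempty (D.H →+* AlgebraicClosure ℚ) :=
      ⟨((IsAlgClosed.lift : D.H →ₐ[ℚ] AlgebraicClosure ℚ) : D.H →+* AlgebraicClosure ℚ)⟩
    rw [finrank_img]
    exact deg hD j (setS_nonempty D.ne)
      (inj_ovr D) hfin (fails_img hL hx0 hx hk)
  · intro k
    refine (finite_H hN hfin hD k).subset ?_
    rintro E ⟨D, j, ⟨L, hL, y, x, hx0, hx, hk⟩, hk', hE⟩
    haveI : IsGalois (img D.K D.H) D.H := galois_img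
    refine ⟨D.H, inferInstance, inferInstance, j, img D.K D.H, inferInstance, setS D.S, _, ?_, ?_,
      setS_nonempty D.ne, inj_ovr D, fails_img hL hx0 hx hk⟩
    · ext a
      rw [hk']
      constructor
      · rintro ⟨_, ⟨b, rfl⟩, rfl⟩
        exact ⟨b, rfl⟩
      · rintro ⟨b, rfl⟩
        exact ⟨_, ⟨b, rfl⟩, rfl⟩
    · ext a
      rw [hE]
      constructor
      · rintro ⟨b, rfl⟩
        exact ⟨b, rfl⟩
      · rintro ⟨b, rfl⟩
        exact ⟨b, rfl⟩
  · refine (finite_sub _ hfin).subset ?_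
    rintro E ⟨hprim, D, j, hf, hCM, hE⟩
    obtain ⟨a, ha, haF, haq⟩ := hF D j hf hCM
    rcases hprim (E ⊓ F₀.toSubfield) inf_le_left with h1 | h1
    · exfalso
      have h2 : j.at (algebraMap D.K D.H a) ∈ (⊥ : Subfield (AlgebraicClosure ℚ)) := by
        rw [← h1]
        exact ⟨(hE _).2 ⟨a, ha, rfl⟩, haF⟩
      have h3 : j.at (algebraMap D.K D.H a) ∈
          (⊥ : IntermediateField ℚ (AlgebraicClosure ℚ)).toSubfield :=
        (bot_le : (⊥ : Subfield (AlgebraicClosure ℚ)) ≤ _) h2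
      obtain ⟨q, hq⟩ := IntermediateField.mem_bot.1 h3
      apply haq q
      apply (algebraMap D.K D.H).injective
      apply (id j : D.H →+* AlgebraicClosure ℚ).injective
      change j.at (algebraMap D.K D.H a) = _
      rw [← hq, eq_ratCast, map_ratCast]
      exact (map_ratCast (id j : D.H →+* AlgebraicClosure ℚ) q).symm
    · exact h1.symm.le.trans inf_le_right

end Pool.Agent.L7h5.SL
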