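import Pool.Agent.L7h5.SL.Desc

/-!
# Elements of `ℂ_p ⊗ 𝓞_H^×` killed by one logarithm (helper5)
-/

set_option autoImplicit false

namespace Pool.Agent.L7h5.SL

open Module Finset NumberField TensorProduct Pool.Agent.W254.Ab
open Pool.Agent.W254.PA (IsU exists_gal isGalois_Qb)
open Pool.Agent.W289.SL Pool.Agent.W332.SL6 Pool.Agent.W332.SL7
open Pool.Agent.N551.LF (isU_unit' coe_prod_zpow')

variable {p : ℕ} [hp : Fact p.Prime]

/-- `x` is a sum of tensors `(y a) ⊗ u` with `a ∈ A` and units `u` in the subset `E` of `H` -/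
def CoordsIn {H : Type} [Field H] [NumberField H] (A : QSub ℂ_[p]) (y : ℂ_[p]) (E : Set H)
    (x : UM p H) : Prop :=
  x ∈ AddSubmonoid.closure {z : UM p H | ∃ a ∈ A, ∃ u : (𝓞 H)ˣ, ((u : 𝓞 H) : H) ∈ E ∧
    z = (y * a) ⊗ₜ[ℤ] (Additive.ofMul u)}

theorem coords_form {H : Type} [Field H] [NumberField H] {A : QSub ℂ_[p]} {y : ℂ_[p]} {E : Set H}
    {x : UM p H} (hx : CoordsIn A y E x) : ∃ (r : ℕ) (a : Fin r → ℂ_[p]) (u : Fin r → (𝓞 H)ˣ),
      (∀ i, a i ∈ A) ∧ (∀ i, ((u i : 𝓞 H) : H) ∈ E) ∧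
        x = ∑ i, (y * a i) ⊗ₜ[ℤ] (Additive.ofMul (u i)) := by
  obtain ⟨l, hl, rfl⟩ := AddSubmonoid.exists_list_of_mem_closure hx
  have h1 : ∀ i : Fin l.length, ∃ a ∈ A, ∃ u : (𝓞 H)ˣ, ((u : 𝓞 H) : H) ∈ E ∧
    l.get i = (y * a) ⊗ₜ[ℤ] (Additive.ofMul u) := fun i => hl _ (List.get_mem l i)
  choose a ha u hu hau using h1
  refine ⟨l.length, a, u, ha, hu, ?_⟩
  rw [← Finset.sum_congr rfl (fun i _ => hau i)]
  rw [← List.sum_ofFn, List.ofFn_get]

theorem coords_sum {H : Type} [Field H] [NumberField H] {A : QSub ℂ_[p]} {y : ℂ_[p]} {E : Set H}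
    {r : ℕ} (a : Fin r → ℂ_[p]) (u : Fin r → (𝓞 H)ˣ) (ha : ∀ i, a i ∈ A)
    (hu : ∀ i, ((u i : 𝓞 H) : H) ∈ E) :
    CoordsIn A y E (∑ i, (y * a i) ⊗ₜ[ℤ] (Additive.ofMul (u i))) :=
  AddSubmonoid.sum_mem _ fun i _ => AddSubmonoid.subset_closure ⟨a i, ha i, u i, hu i, rfl⟩

theorem coords_mono {H : Type} [Field H] [NumberField H] {A : QSub ℂ_[p]} {y : ℂ_[p]}
    {E E' : Set H} (h : E ⊆ E') {x : UM p H} (hx : CoordsIn A y E x) : CoordsIn A y E' x := by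
  refine AddSubmonoid.closure_mono ?_ hx
  rintro z ⟨a, ha, u, hu, rfl⟩
  exact ⟨a, ha, u, h hu, rfl⟩

/-- every vector has coordinates in a finite dimensional space -/
theorem exists_coords {H : Type} [Field H] [NumberField H] (x : UM p H) :
    ∃ A : QSub ℂ_[p], FinQ A ∧ CoordsIn A 1 Set.univ x := by
  induction x using TensorProduct.induction_on with
  | zero => exact ⟨⊥, by unfold FinQ; infer_instance, AddSubmonoid.zero_mem _⟩
  | tmul c u =>
    refine ⟨Submodule.span _ {c}, ?_, ?_⟩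
    · unfold FinQ
      exact FiniteDimensional.span_of_finite _ (Set.finite_singleton c)
    · refine AddSubmonoid.subset_closure ⟨c, Submodule.mem_span_singleton_self c,
        Additive.toMul u, Set.mem_univ _, ?_⟩
      rw [one_mul]
      rfl
  | add x y hx hy =>
    obtain ⟨A, hA, hx⟩ := hx
    obtain ⟨B, hB, hy⟩ := hy
    unfold FinQ at hA hB
    refine ⟨A ⊔ B, by unfold FinQ; infer_instance, AddSubmonoid.add_mem _ ?_ ?_⟩
    · refine AddSubmonoid.closure_mono ?_ hx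
      rintro z ⟨a, ha, u, hu, rfl⟩
      exact ⟨a, (le_sup_left : A ≤ A ⊔ B) ha, u, hu, rfl⟩
    · refine AddSubmonoid.closure_mono ?_ hy
      rintro z ⟨a, ha, u, hu, rfl⟩
      exact ⟨a, (le_sup_right : B ≤ A ⊔ B) ha, u, hu, rfl⟩

section generic

variable {k Q : Type} [Field k] [Field Q] [Algebra k Q]

theorem gal_stab (F₀ : IntermediateField k Q) (hN : Normal k F₀) (g : Q ≃ₐ[k] Q) {z : Q}
    (hz : g z ∈ F₀) : z ∈ F₀ := by
  have h6 := AlgEquiv.restrictNormalHom_apply F₀ g.symm ⟨g z, hz⟩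
  have h7 : g.symm (g z) = z := g.symm_apply_apply _
  change _ = g.symm (g z) at h6
  rw [h7] at h6
  rw [← h6]
  exact (AlgEquiv.restrictNormalHom F₀ g.symm ⟨g z, hz⟩).2

theorem exists_bot : ∃ F₀ : IntermediateField k Q, FiniteDimensional k F₀ ∧ Normal k F₀ :=
  ⟨⊥, inferInstance, inferInstance⟩

end generic

section main

variable {L : ℂ_[p] → ℂ_[p]} (hL : IsIwasawaLog p L)

include hL in
/-- **One number field for each space of coordinates**: relations -/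
theorem descend_rel (A : QSub ℂ_[p]) (hA : FinQ A) :
    ∃ F₀ : IntermediateField ℚ (AlgebraicClosure ℚ), FiniteDimensional ℚ F₀ ∧ Normal ℚ F₀ ∧
      ∀ (H : Type) [Field H] [NumberField H] (j : H →+* AlgebraicClosure ℚ) (σ : H →+* ℂ_[p])
        (r : ℕ) (ε : Fin r → H), (∀ i, IsU (ε i)) → ∀ a : Fin r → ℂ_[p], (∀ i, a i ∈ A) →
          ∑ i, a i * L (σ (ε i)) = 0 →
          ∃ (s : ℕ) (q : Fin s → Fin r → ℤ) (b : Fin s → ℂ_[p]),
            (∀ t, b t ∈ A) ∧ (∀ i, a i = ∑ t, (q t i : ℂ_[p]) * b t) ∧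
              ∀ t, j (∏ i, ε i ^ q t i) ∈ F₀ := by
  haveI := isGalois_Qb
  have hfin : FiniteDimensional (QA ℂ_[p]) A := hA
  have hι : Nonempty (AlgebraicClosure ℚ →+* ℂ_[p]) := by
    haveI : Algebra.IsAlgebraic ℚ (AlgebraicClosure ℚ) := isGalois_Qb.to_normal.toIsAlgebraic
    exact ⟨((IsAlgClosed.lift : AlgebraicClosure ℚ →ₐ[ℚ] ℂ_[p]) :
      AlgebraicClosure ℚ →+* ℂ_[p])⟩
  obtain ⟨ι₀⟩ := hι
  obtain ⟨F₀, h1, h2, h3⟩ := descend (logSys hL) (k := ℚ) (Q := AlgebraicClosure ℚ) ι₀ A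
  refine ⟨F₀, ?_, ?_, ?_⟩
  · convert h1
  · convert h2
    exact Subsingleton.elim _ _
  intro H _ _ j σ r ε hε a haA ha0
  -- extend the embedding
  obtain ⟨ι', hι'⟩ : ∃ ι' : AlgebraicClosure ℚ →+* ℂ_[p], ∀ x, ι' (j x) = σ x := by
    letI : Algebra H (AlgebraicClosure ℚ) := j.toAlgebra
    letI : Algebra H ℂ_[p] := σ.toAlgebra
    haveI : IsScalarTower ℚ H (AlgebraicClosure ℚ) :=
      IsScalarTower.of_algebraMap_eq' (RingHom.ext_rat _ _)
    haveI : Algebra.IsAlgebraic ℚ (AlgebraicClosure ℚ) := isGalois_Qb.to_normal.toIsAlgebraic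
    haveI : Algebra.IsAlgebraic H (AlgebraicClosure ℚ) := Algebra.IsAlgebraic.tower_top (K := ℚ) H
    let τ : AlgebraicClosure ℚ →ₐ[H] ℂ_[p] := IsAlgClosed.lift
    exact ⟨τ, fun x => τ.commutes x⟩
  obtain ⟨g, hg⟩ := exists_gal (k := ℚ) (fun f g => RingHom.ext_rat f g) ι₀ ι'
  obtain ⟨s, q, b, g1, g2, g3, g4⟩ := h3 r (fun i => g (j (ε i)))
    (fun i => ((hε i).map j).map (g : AlgebraicClosure ℚ →+* AlgebraicClosure ℚ)) a haA (by
      rw [← ha0]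
      refine Finset.sum_congr rfl fun i _ => ?_
      rw [hg, hι'])
  refine ⟨s, q, b, g2, g3, ?_⟩
  intro t
  have h5 : ∏ i, g (j (ε i)) ^ q t i = g (j (∏ i, ε i ^ q t i)) := by
    rw [map_prod, map_prod]
    refine Finset.prod_congr rfl fun i _ => ?_
    rw [map_zpow₀, map_zpow₀]
  have hz := g4 t
  rw [h5] at hz
  exact gal_stab F₀ h2 g hz

end main

/-- **One number field for each space of coordinates.** -/
theorem descend_vec (A : QSub ℂ_[p]) (hA : FinQ A) :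
    ∃ F₀ : IntermediateField ℚ (AlgebraicClosure ℚ), FiniteDimensional ℚ F₀ ∧ Normal ℚ F₀ ∧
      ∀ (H : Type) [Field H] [NumberField H] (j : H →+* AlgebraicClosure ℚ)
        (L : ℂ_[p] → ℂ_[p]) (hL : IsIwasawaLog p L) (σ : H →+* ℂ_[p])
        (y : ℂ_[p]) (x : UM p H), CoordsIn A y Set.univ x → logLin hL σ x = 0 →
          CoordsIn A y {a | j a ∈ F₀} x := by
  by_cases hex : ∃ L, IsIwasawaLog p L
  swap
  · obtain ⟨F₀, h1, h2⟩ := exists_bot (k := ℚ) (Q := AlgebraicClosure ℚ)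
    refine ⟨F₀, by convert h1, by convert h2; exact Subsingleton.elim _ _, ?_⟩
    intro H _ _ j L hL
    exact absurd ⟨L, hL⟩ hex
  obtain ⟨L₀, hL₀⟩ := hex
  obtain ⟨F₀, h1, h2, h3⟩ := descend_rel hL₀ A hA
  refine ⟨F₀, h1, h2, ?_⟩
  intro H _ _ j L hL σ y x hx h0
  obtain ⟨r, a, u, ha, -, rfl⟩ := coords_form hx
  by_cases hy : y = 0
  · subst hy
    have h4 : ∀ i, ((0 : ℂ_[p]) * a i) ⊗ₜ[ℤ] (Additive.ofMul (u i)) = (0 : UM p H) := by
      intro i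
      rw [zero_mul, TensorProduct.zero_tmul]
    rw [Finset.sum_eq_zero (fun i _ => h4 i)]
    exact AddSubmonoid.zero_mem _
  have h5 : ∑ i, a i * L₀ (σ ((u i : 𝓞 H) : H)) = 0 := by
    rw [map_sum] at h0
    have h6 : y * ∑ i, a i * L₀ (σ ((u i : 𝓞 H) : H)) = 0 := by
      rw [← h0, Finset.mul_sum]
      refine Finset.sum_congr rfl fun i _ => ?_
      rw [logLin_tmul', toMul_ofMul]
      have h7 : L₀ (σ ((u i : 𝓞 H) : H)) = L (σ ((u i : 𝓞 H) : H)) :=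
        log_unique hL₀ hL (nearU_unit σ (u i))
      rw [h7]
      ring
    exact (mul_eq_zero.mp h6).resolve_left hy
  obtain ⟨s, q, b, g2, g3, g4⟩ := h3 H j σ r (fun i => ((u i : 𝓞 H) : H))
    (fun i => isU_unit' (u i)) a ha h5
  have h8 : ∑ i, (y * a i) ⊗ₜ[ℤ] (Additive.ofMul (u i)) =
      ∑ t, (y * b t) ⊗ₜ[ℤ] (Additive.ofMul (∏ i, u i ^ q t i)) := by
    have h9 : ∀ t, ((y * b t) ⊗ₜ[ℤ] (Additive.ofMul (∏ i, u i ^ q t i)) : UM p H) =
        ∑ i, (y * ((q t i : ℂ_[p]) * b t)) ⊗ₜ[ℤ] (Additive.ofMul (u i)) := by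
      intro t
      rw [ofMul_prod, TensorProduct.tmul_sum]
      refine Finset.sum_congr rfl fun i _ => ?_
      have h10 : ((y * b t) ⊗ₜ[ℤ] (q t i • Additive.ofMul (u i)) : UM p H) =
          q t i • ((y * b t) ⊗ₜ[ℤ] Additive.ofMul (u i)) :=
        map_zsmul ((TensorProduct.mk ℤ ℂ_[p] (Additive (𝓞 H)ˣ)) (y * b t)) (q t i)
          (Additive.ofMul (u i))
      rw [ofMul_zpow, h10, ← Int.cast_smul_eq_zsmul ℂ_[p], TensorProduct.smul_tmul', smul_eq_mul]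
      congr 1
      ring
    simp only [h9]
    rw [Finset.sum_comm]
    refine Finset.sum_congr rfl fun i _ => ?_
    rw [g3 i, Finset.mul_sum, TensorProduct.sum_tmul]
  rw [h8]
  refine coords_sum b _ g2 fun t => ?_
  have h10 := g4 t
  rw [← coe_prod_zpow'] at h10
  exact h10

end Pool.Agent.L7h5.SL
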